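import Pool.Agent.TH981.LO.Bas

set_option autoImplicit false

open Pool.Agent.TH981.LO
open scoped BigOperators symmDiff MeasureTheory

namespace Pool.Agent.TH981.LO.Main

theorem PS_sum {V E : Type} [DecidableEq V] [DecidableEq E] (G : MG V E) (w : E → ℝ)
    (F : Finset E) (A : V → ZMod 2) (I : Finset ℕ) (g : ℕ → Finset E → Finset E → ℝ) :
    G.PS w F A (fun ω η => ∑ s ∈ I, g s ω η) = ∑ s ∈ I, G.PS w F A (g s) := by
  classical
  induction I using Finset.induction_on with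
  | empty =>
    simp only [Finset.sum_empty]
    have := G.PS_smul w F A 0 (fun _ _ => 0)
    simpa using this
  | insert a I ha ih =>
    simp only [Finset.sum_insert ha]
    rw [G.PS_add, ih]

theorem sum_pow_dist_le {q : ℝ} (hq0 : 0 < q) (hq1 : q < 1) (a : ℕ) (I : Finset ℕ) :
    ∑ s ∈ I, q ^ (((a : ℤ) - (s : ℤ)).natAbs) ≤ 2 / (1 - q) := by
  have h1q : 0 < 1 - q := by linarith
  have hsplit := Finset.sum_filter_add_sum_filter_not I (fun s => s ≤ a)
    (fun s : ℕ => q ^ (((a : ℤ) - (s : ℤ)).natAbs))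
  have hgeo : ∀ J : Finset ℕ, ∑ k ∈ J, q ^ k ≤ 1 / (1 - q) := by
    intro J
    have := (summable_geometric_of_lt_one hq0.le hq1).sum_le_tsum J
      (fun k _ => by positivity)
    rw [tsum_geometric_of_lt_one hq0.le hq1] at this
    rw [one_div]
    exact this
  have h1 : ∑ s ∈ I.filter (fun s => s ≤ a), q ^ (((a : ℤ) - (s : ℤ)).natAbs) ≤ 1 / (1 - q) := by
    have : ∑ s ∈ I.filter (fun s => s ≤ a), q ^ (((a : ℤ) - (s : ℤ)).natAbs) =
        ∑ k ∈ (I.filter (fun s => s ≤ a)).image (fun s => a - s), q ^ k := by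
      rw [Finset.sum_image]
      · refine Finset.sum_congr rfl fun s hs => ?_
        simp only [Finset.mem_filter] at hs
        congr 1
        omega
      · intro s hs t ht hst
        simp only [Finset.coe_filter, Set.mem_setOf_eq] at hs ht
        simp only at hst
        omega
    rw [this]
    exact hgeo _
  have h2 : ∑ s ∈ I.filter (fun s => ¬ s ≤ a), q ^ (((a : ℤ) - (s : ℤ)).natAbs) ≤
      1 / (1 - q) := by
    have : ∑ s ∈ I.filter (fun s => ¬ s ≤ a), q ^ (((a : ℤ) - (s : ℤ)).natAbs) =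
        ∑ k ∈ (I.filter (fun s => ¬ s ≤ a)).image (fun s => s - a), q ^ k := by
      rw [Finset.sum_image]
      · refine Finset.sum_congr rfl fun s hs => ?_
        simp only [Finset.mem_filter] at hs
        congr 1
        omega
      · intro s hs t ht hst
        simp only [Finset.coe_filter, Set.mem_setOf_eq] at hs ht
        simp only at hst
        omega
    rw [this]
    exact hgeo _
  rw [← hsplit]
  calc _ ≤ 1 / (1 - q) + 1 / (1 - q) := add_le_add h1 h2
    _ = 2 / (1 - q) := by ring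

theorem sum_ms_le {d : ℕ} {q : ℝ} (hq0 : 0 < q) (hq1 : q < 1) (κ : Finset (Vt d))
    (I : Finset ℕ) : ∑ s ∈ I, ms q s κ ≤ κ.card * (2 / (1 - q)) := by
  unfold ms
  rw [Finset.sum_comm]
  calc ∑ v ∈ κ, ∑ s ∈ I, q ^ (((nm v : ℤ) - (s : ℤ)).natAbs) ≤ ∑ v ∈ κ, 2 / (1 - q) :=
        Finset.sum_le_sum fun v _ => sum_pow_dist_le hq0 hq1 (nm v) I
    _ = κ.card * (2 / (1 - q)) := by
        rw [Finset.sum_const, nsmul_eq_mul]

theorem ms_nonneg {d : ℕ} {q : ℝ} (hq0 : 0 < q) (s : ℕ) (κ : Finset (Vt d)) : 0 ≤ ms q s κ :=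
  Finset.sum_nonneg fun _ _ => by positivity

open Classical in
/-- most radii are good -/
theorem one_le_good {d : ℕ} {q : ℝ} (hq0 : 0 < q) (hq1 : q < 1) (lam K' T : ℕ) (hT : 8 ≤ T)
    (hK' : 16 * (lam : ℝ) / (1 - q) + 1 ≤ K') (κ : Finset (Vt d)) (hκ : ¬ lam * T ≤ κ.card) :
    (1 : ℝ) ≤ 8 / T * ∑ s ∈ Finset.Icc (T / 2) (T - 2), (if ms q s κ ≤ K' then (1 : ℝ) else 0) := by
  have h1q : 0 < 1 - q := by linarith
  have hTr : (8 : ℝ) ≤ T := by exact_mod_cast hT
  push Not at hκ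
  have hκr : (κ.card : ℝ) ≤ lam * T := by exact_mod_cast hκ.le
  set I := Finset.Icc (T / 2) (T - 2) with hI
  have hK'pos : (0 : ℝ) < K' := by
    have : 0 ≤ 16 * (lam : ℝ) / (1 - q) := by positivity
    linarith
  -- the bad radii
  have hbad : ((I.filter (fun s => ¬ ms q s κ ≤ K')).card : ℝ) * K' ≤ lam * T * (2 / (1 - q)) := by
    calc ((I.filter (fun s => ¬ ms q s κ ≤ K')).card : ℝ) * K'
        = ∑ s ∈ I.filter (fun s => ¬ ms q s κ ≤ K'), (K' : ℝ) := by
          rw [Finset.sum_const, nsmul_eq_mul]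
      _ ≤ ∑ s ∈ I.filter (fun s => ¬ ms q s κ ≤ K'), ms q s κ := by
          refine Finset.sum_le_sum fun s hs => ?_
          simp only [Finset.mem_filter, not_le] at hs
          exact hs.2.le
      _ ≤ ∑ s ∈ I, ms q s κ :=
          Finset.sum_le_sum_of_subset_of_nonneg (Finset.filter_subset _ _)
            (fun s _ _ => ms_nonneg hq0 s κ)
      _ ≤ κ.card * (2 / (1 - q)) := sum_ms_le hq0 hq1 κ I
      _ ≤ lam * T * (2 / (1 - q)) := mul_le_mul_of_nonneg_right hκr (by positivity)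
  have hbad2 : ((I.filter (fun s => ¬ ms q s κ ≤ K')).card : ℝ) ≤ T / 8 := by
    have e1 : lam * T * (2 / (1 - q)) ≤ T / 8 * K' := by
      have e2 : 16 * (lam : ℝ) / (1 - q) ≤ K' := by linarith
      calc lam * T * (2 / (1 - q)) = T / 8 * (16 * lam / (1 - q)) := by ring
        _ ≤ T / 8 * K' := mul_le_mul_of_nonneg_left e2 (by positivity)
    have := hbad.trans e1
    exact le_of_mul_le_mul_right this hK'pos
  have hcard : (T : ℝ) / 4 ≤ (I.card : ℝ) := by
    have : T ≤ 4 * I.card := by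
      rw [hI, Nat.card_Icc]
      omega
    have : (T : ℝ) ≤ 4 * I.card := by exact_mod_cast this
    linarith
  have htot : ((I.filter (fun s => ms q s κ ≤ K')).card : ℝ) +
      (I.filter (fun s => ¬ ms q s κ ≤ K')).card = I.card := by
    have := Finset.card_filter_add_card_filter_not (s := I) (fun s => ms q s κ ≤ K')
    exact_mod_cast this
  have hgood : (T : ℝ) / 8 ≤ (I.filter (fun s => ms q s κ ≤ K')).card := by linarith
  have hsum : ∑ s ∈ I, (if ms q s κ ≤ K' then (1 : ℝ) else 0) =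
      (I.filter (fun s => ms q s κ ≤ K')).card := by
    rw [Finset.sum_ite, Finset.sum_const_zero, add_zero, Finset.sum_const, nsmul_eq_mul, mul_one]
  rw [hsum]
  have hTpos : (0 : ℝ) < T := by linarith
  calc (1 : ℝ) = 8 / T * (T / 8) := by field_simp
    _ ≤ 8 / T * (I.filter (fun s => ms q s κ ≤ K')).card :=
        mul_le_mul_of_nonneg_left hgood (by positivity)

theorem exists_T0_exp (c A ε : ℝ) (hc : 0 < c) (hε : 0 < ε) :
    ∃ T₀ : ℕ, ∀ T : ℕ, T₀ ≤ T → A * Real.exp (-c * T) ≤ ε := by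
  have h : Filter.Tendsto (fun T : ℝ => A * Real.exp (-c * T)) Filter.atTop (nhds (A * 0)) := by
    refine Filter.Tendsto.const_mul A ?_
    refine Real.tendsto_exp_atBot.comp ?_
    exact Filter.tendsto_id.const_mul_atTop_of_neg (by linarith : -c < 0)
  rw [mul_zero] at h
  have h2 := h.comp tendsto_natCast_atTop_atTop
  have h4 := h2.eventually (ge_mem_nhds hε)
  obtain ⟨T₀, hT₀⟩ := Filter.eventually_atTop.mp h4
  exact ⟨T₀, fun T hT => hT₀ T hT⟩

theorem ac (d : ℕ) (x : ℝ) (hd : 2 ≤ d) (hx0 : 0 < x) (hx1 : x < 1) (h1 : S_SURG d x)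
    (h2 : S_STAIL d x) (h3 : S_TJ d) (h4 : S_EVEN d) : S_AC d x := by
  classical
  obtain ⟨q, hq0, hq1, C₁, hC₁, c₁, hc₁, hS⟩ := h1
  obtain ⟨c, hc, C, hC, hST⟩ := h2
  obtain ⟨K1, hK1, hTJ⟩ := h3 1 one_pos
  intro K
  set mu := Real.log (x⁻¹) with hmu
  have hmu0 : 0 < mu := Real.log_pos ((one_lt_inv₀ hx0).mpr hx1)
  obtain ⟨lam, hlam⟩ := exists_nat_ge (((K + K1) * mu + 1) / c)
  have hlam' : (K + K1) * mu + 1 ≤ c * lam := by
    rw [div_le_iff₀ hc] at hlam
    linarith
  obtain ⟨K', hK'⟩ := exists_nat_ge (16 * (lam : ℝ) / (1 - q) + 1)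
  refine ⟨8 * C₁ ^ K', by positivity, ?_⟩
  intro m ε hε
  obtain ⟨Cm, hCm, hSm⟩ := hS m
  obtain ⟨Ta, hTa⟩ := exists_T0_exp 1 (C ^ K) (ε / 2) one_pos (by linarith)
  obtain ⟨Tb, hTb⟩ := exists_T0_exp (c₁ / 4) (8 * C₁ ^ K' * Cm) (ε / 2) (by linarith) (by linarith)
  refine ⟨max (max Ta Tb) (max 8 (2 * m + 2)), ?_⟩
  intro T D U i P hT hD hU hUK hZ hP
  have hTTa : Ta ≤ T := le_trans (le_trans (le_max_left _ _) (le_max_left _ _)) hT
  have hTTb : Tb ≤ T := le_trans (le_trans (le_max_right _ _) (le_max_left _ _)) hT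
  have hT8 : 8 ≤ T := le_trans (le_trans (le_max_left _ _) (le_max_right _ _)) hT
  have hTm : 2 * m + 2 ≤ T := le_trans (le_trans (le_max_right _ _) (le_max_right _ _)) hT
  have hTr : (8 : ℝ) ≤ T := by exact_mod_cast hT8
  have hTpos : (0 : ℝ) < T := by linarith
  have heven := h4 x D U hZ
  have hUbox : U ⊆ box d T := by
    intro u hu
    rw [mem_box, hU u hu]
  obtain ⟨η₀, hη₀, hb, hcard⟩ := hTJ T U hUbox heven
  have hZ0 : 0 ≤ ZZ d x D (ind U) := (lat d).Z_nonneg (ind U) (fun _ _ => hx0.le)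
  have hZp : 0 < ZZ d x D (ind U) := lt_of_le_of_ne hZ0 (Ne.symm hZ)
  -- tail
  have htail : (lat d).PS (fun _ => x) D (ind U)
      (fun ω _ => if lam * T ≤ ((lat d).clF ω U).card then 1 else 0) ≤
        ε / 2 * ZZ d x D (ind U) := by
    refine (hST D η₀ U (lam * T) (hη₀.trans hD) hb).trans ?_
    refine mul_le_mul_of_nonneg_right ?_ hZ0
    have e1 : C ^ U.card ≤ C ^ K := pow_le_pow_right₀ hC hUK
    have e2 : (x⁻¹) ^ η₀.card = Real.exp (η₀.card * mu) := by
      rw [mul_comm, Real.exp_mul, hmu, Real.exp_log (by positivity), Real.rpow_natCast]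
    have e3 : Real.exp (-c * ((lam * T : ℕ) : ℝ)) * (x⁻¹) ^ η₀.card ≤ Real.exp (-1 * T) := by
      rw [e2, ← Real.exp_add, Real.exp_le_exp]
      have e4 : (η₀.card : ℝ) ≤ (K + K1) * T := by
        have : (U.card : ℝ) ≤ K := by exact_mod_cast hUK
        calc (η₀.card : ℝ) ≤ 1 * U.card * T + K1 * T := hcard
          _ ≤ 1 * K * T + K1 * T := by gcongr
          _ = (K + K1) * T := by ring
      have e5 : (η₀.card : ℝ) * mu ≤ (K + K1) * T * mu := mul_le_mul_of_nonneg_right e4 hmu0.le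
      push_cast
      nlinarith
    calc C ^ U.card * Real.exp (-c * ((lam * T : ℕ) : ℝ)) * (x⁻¹) ^ η₀.card
        = C ^ U.card * (Real.exp (-c * ((lam * T : ℕ) : ℝ)) * (x⁻¹) ^ η₀.card) := by ring
      _ ≤ C ^ K * Real.exp (-1 * T) :=
          mul_le_mul e1 e3 (by positivity) (by positivity)
      _ ≤ ε / 2 := hTa T hTTa
  -- the surgery estimates
  set I := Finset.Icc (T / 2) (T - 2) with hI
  set R1 : ℝ := LL d x D (ind U) (fun η => if P η then 1 else 0) with hR1
  have hR10 : 0 ≤ R1 := (lat d).L_nonneg (ind U) (fun _ _ => hx0.le) (fun η _ => by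
    split_ifs <;> norm_num)
  have hsurg : ∀ s ∈ I, (lat d).PS (fun _ => x) D (ind U) (fun ω η =>
          if ms q s ((lat d).clF ω U) ≤ K' ∧ P (shF (ev i) η) then 1 else 0) ≤
        C₁ ^ K' * (R1 + Cm * Real.exp (-(c₁ / 4) * T) * ZZ d x D (ind U)) := by
    intro s hs
    rw [hI, Finset.mem_Icc] at hs
    refine (hSm s K' i D U P (by omega) ((EB_mono (by omega)).trans hD) (by
      intro u hu
      rw [hU u hu]
      omega) hP).trans ?_
    refine mul_le_mul_of_nonneg_left ?_ (by positivity)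
    have e1 : Real.exp (-c₁ * s) ≤ Real.exp (-(c₁ / 4) * T) := by
      rw [Real.exp_le_exp]
      have : T ≤ 4 * s := by omega
      have : (T : ℝ) ≤ 4 * s := by exact_mod_cast this
      nlinarith
    have e2 : Cm * Real.exp (-c₁ * s) * ZZ d x D (ind U) ≤
        Cm * Real.exp (-(c₁ / 4) * T) * ZZ d x D (ind U) := by gcongr
    linarith
  -- pointwise bound
  have hpt : (lat d).PS (fun _ => x) D (ind U) (fun _ η => if P (shF (ev i) η) then 1 else 0) ≤
      (lat d).PS (fun _ => x) D (ind U) (fun ω η =>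
        (if lam * T ≤ ((lat d).clF ω U).card then 1 else 0) +
        8 / (T : ℝ) * ∑ s ∈ I,
          (if ms q s ((lat d).clF ω U) ≤ K' ∧ P (shF (ev i) η) then (1 : ℝ) else 0)) := by
    refine (lat d).PS_mono (ind U) (fun _ _ => hx0.le) (fun _ _ => hx1.le) ?_
    intro ω _ η _ _
    by_cases hPη : P (shF (ev i) η)
    · simp only [hPη, if_true, and_true]
      by_cases hL : lam * T ≤ ((lat d).clF ω U).card
      · simp only [hL, if_true]
        have : 0 ≤ 8 / (T : ℝ) * ∑ s ∈ I,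
          (if ms q s ((lat d).clF ω U) ≤ K' then (1 : ℝ) else 0) := by
          apply mul_nonneg (by positivity)
          exact Finset.sum_nonneg fun _ _ => by split_ifs <;> norm_num
        linarith
      · simp only [hL, if_false, zero_add]
        exact one_le_good hq0 hq1 lam K' T hT8 hK' _ hL
    · simp only [hPη, if_false, and_false]
      simp only [Finset.sum_const_zero, mul_zero, add_zero]
      split_ifs <;> norm_num
  have hPS := hpt
  rw [(lat d).PS_add, (lat d).PS_smul, PS_sum] at hPS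
  have hLLe : LL d x D (ind U) (fun η => if P (shF (ev i) η) then 1 else 0) =
      (lat d).PS (fun _ => x) D (ind U) (fun _ η => if P (shF (ev i) η) then 1 else 0) :=
    ((lat d).PS_eta _ _ _ _).symm
  have hIcard : (I.card : ℝ) ≤ T := by
    have : I.card ≤ T := by
      rw [hI, Nat.card_Icc]
      omega
    exact_mod_cast this
  set Q : ℝ := C₁ ^ K' * (R1 + Cm * Real.exp (-(c₁ / 4) * T) * ZZ d x D (ind U)) with hQ
  have hQ0 : 0 ≤ Q := by positivity
  have hsum : 8 / (T : ℝ) * ∑ s ∈ I, (lat d).PS (fun _ => x) D (ind U) (fun ω η =>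
          if ms q s ((lat d).clF ω U) ≤ K' ∧ P (shF (ev i) η) then 1 else 0) ≤ 8 * Q := by
    have e1 := Finset.sum_le_sum hsurg
    rw [Finset.sum_const, nsmul_eq_mul] at e1
    calc 8 / (T : ℝ) * ∑ s ∈ I, (lat d).PS (fun _ => x) D (ind U) (fun ω η =>
          if ms q s ((lat d).clF ω U) ≤ K' ∧ P (shF (ev i) η) then 1 else 0)
        ≤ 8 / (T : ℝ) * (I.card * Q) := mul_le_mul_of_nonneg_left e1 (by positivity)
      _ ≤ 8 / (T : ℝ) * (T * Q) := by gcongr
      _ = 8 * Q := by field_simp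
  have hfinal : LL d x D (ind U) (fun η => if P (shF (ev i) η) then 1 else 0) ≤
      ε / 2 * ZZ d x D (ind U) + 8 * Q := by
    rw [hLLe]
    linarith
  have hQb : 8 * Q ≤ 8 * C₁ ^ K' * R1 + ε / 2 * ZZ d x D (ind U) := by
    have e1 := hTb T hTTb
    have e2 : 8 * Q = 8 * C₁ ^ K' * R1 +
        (8 * C₁ ^ K' * Cm * Real.exp (-(c₁ / 4) * T)) * ZZ d x D (ind U) := by
      rw [hQ]
      ring
    rw [e2]
    have := mul_le_mul_of_nonneg_right e1 hZ0
    linarith
  change LL d x D (ind U) _ / ZZ d x D (ind U) ≤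
    8 * C₁ ^ K' * (LL d x D (ind U) _ / ZZ d x D (ind U)) + ε
  rw [div_le_iff₀ hZp]
  have e3 : (8 * C₁ ^ K' * (R1 / ZZ d x D (ind U)) + ε) * ZZ d x D (ind U) =
      8 * C₁ ^ K' * R1 + ε * ZZ d x D (ind U) := by
    field_simp
  rw [hR1] at e3
  rw [e3]
  rw [hR1] at hQb
  linarith

end Pool.Agent.TH981.LO.Main
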