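import Pool.Agent.TH981.LO.Stm
import Pool.Agent.TH897.J338
import Pool.Agent.TH858.J339
import Pool.Agent.TH897.J340
import Pool.Agent.TH58.J347

/-!
# Loop O(1) uniqueness: the basic API

This module only collects the basic lemmas (namespaces `Pool.Agent.TH981.LO` and
`Pool.Agent.TH981.LO.MG`):
* `Pool/Agent/TH897/J338.lean` : `MG.bd_*`, `MG.Cn_*`, `MG.mem_clF`, `MG.clF_*`, `MG.L_*`, `MG.Z_*`,
  `MG.PS_zero_weight`;
* `Pool/Agent/TH858/J339.lean` : `MG.PS_*`, `MG.sum_bw_superset`, `MG.PS_eta`, `MG.PS_omega`,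
  `MG.corr_eq_fkp`, `MG.fe_two_iff`, `MG.fkp_*`, `MG.corr_*`, `MG.Z_ge_of_join`;
* `Pool/Agent/TH897/J340.lean` : `nm`, `box`, `EB`, `TE`, `shF` lemmas, `bd_shF`, `LL_shF`,
  `CC_shF`, `corr_shF`, `Cn_shF`;
* `Pool/Agent/TH58/J347.lean` : `bd_eq_card`, `exists_path`, `exists_on_sphere`.
-/
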