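import Pool.Agent.TH981.LO.Bas

set_option autoImplicit false

open Pool.Agent.TH981.LO
open scoped BigOperators symmDiff MeasureTheory

namespace Pool.Agent.TH981.LO.Main

theorem exists_T0 (c ε : ℝ) (hc : 0 < c) (hε : 0 < ε) (k : ℕ) :
    ∃ T₀ : ℕ, ∀ T : ℕ, T₀ ≤ T → Real.exp (-c * T) * (8 * (T : ℝ) ^ k) ≤ ε := by
  have h : Filter.Tendsto (fun T : ℝ => T ^ k * Real.exp (-c * T)) Filter.atTop (nhds 0) := by
    have := Real.tendsto_pow_mul_exp_neg_atTop_nhds_zero k
    have h2 := (this.comp (Filter.tendsto_id.const_mul_atTop hc)).const_mul ((c ^ k)⁻¹)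
    rw [mul_zero] at h2
    refine h2.congr fun T => ?_
    simp only [Function.comp, id]
    rw [mul_pow]
    have : (c ^ k)⁻¹ * (c ^ k * T ^ k * Real.exp (-(c * T))) = T ^ k * Real.exp (-(c * T)) := by
      field_simp
    rw [this, neg_mul]
  have h2 := h.comp tendsto_natCast_atTop_atTop
  have h3 := (Filter.Tendsto.const_mul 8 h2)
  rw [mul_zero] at h3
  have h4 := h3.eventually (ge_mem_nhds hε)
  obtain ⟨T₀, hT₀⟩ := Filter.eventually_atTop.mp h4
  refine ⟨T₀, fun T hT => ?_⟩
  have := hT₀ T hT
  simp only [Function.comp] at this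
  nlinarith [this]

theorem boot (d : ℕ) (x : ℝ) (hd : 2 ≤ d) (hx0 : 0 < x) (hx1 : x < 1) (h1 : S_STEPDET d)
    (h2 : S_STEPPROB d x) : S_BOOT d x := by
  classical
  obtain ⟨K1, c, hc, T01, hprob⟩ := h2
  refine ⟨max K1 (4 ^ d), ?_⟩
  intro ε hε
  obtain ⟨T02, hT02⟩ := exists_T0 c ε hc hε (2 * d)
  refine ⟨max (max T01 T02) 2, ?_⟩
  intro T₁ f a hT₁ hloc hf1 ha hsmall
  have hT₁a : T01 ≤ T₁ := le_trans (le_trans (le_max_left _ _) (le_max_left _ _)) hT₁
  have hT₁b : T02 ≤ T₁ := le_trans (le_trans (le_max_right _ _) (le_max_left _ _)) hT₁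
  have hT₁c : 2 ≤ T₁ := le_trans (le_max_right _ _) hT₁
  have h4d : 16 ≤ 4 ^ d := by
    calc 16 = 4 ^ 2 := by norm_num
      _ ≤ 4 ^ d := Nat.pow_le_pow_right (by norm_num) hd
  -- strong induction on the number of sources
  have key : ∀ n : ℕ, ∀ (T : ℕ) (D : Finset (Ed d)) (U : Finset (Vt d)), T₁ ≤ T → EB d T ⊆ D →
      (∀ u ∈ U, nm u = T) → U.card = n → U.card * T₁ ^ (2 * d) ≤ T ^ (2 * d) →
      ZZ d x D (ind U) ≠ 0 → EE d x D (ind U) f ≤ a + ε * (1 - 1 / ((n : ℝ) + 1)) := by
    intro n
    induction n using Nat.strong_induction_on with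
    | _ n ih =>
      intro T D U hT hD hU hn hcard hZ
      by_cases hnK : n ≤ max K1 (4 ^ d)
      · have := hsmall T D U hT hD hU (hn ▸ hnK) hZ
        have h0 : 0 ≤ ε * (1 - 1 / ((n : ℝ) + 1)) := by
          apply mul_nonneg hε.le
          have : 1 / ((n : ℝ) + 1) ≤ 1 := by
            rw [div_le_one (by positivity)]
            have : (0 : ℝ) ≤ n := Nat.cast_nonneg n
            linarith
          linarith
        linarith
      · push Not at hnK
        have hn1 : K1 ≤ n := (le_max_left _ _).trans hnK.le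
        have hn2 : 4 ^ d ≤ n := (le_max_right _ _).trans hnK.le
        have hn16 : 16 ≤ n := le_trans h4d hn2
        -- T ≥ 2 T₁
        have hT2 : 2 * T₁ ≤ T := by
          by_contra hlt
          push Not at hlt
          have h3 : T ^ (2 * d) < (2 * T₁) ^ (2 * d) :=
            Nat.pow_lt_pow_left hlt (by omega)
          have h5 : (2 * T₁) ^ (2 * d) = 4 ^ d * T₁ ^ (2 * d) := by
            rw [mul_pow, pow_mul]
            norm_num
          have h6 : 4 ^ d * T₁ ^ (2 * d) ≤ U.card * T₁ ^ (2 * d) :=
            Nat.mul_le_mul_right _ (hn ▸ hn2)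
          omega
        set h := (T + 1) / 2 with hh
        have hhT : T₁ ≤ h := by omega
        set n' := n / 4 ^ d with hn'
        have hn'lt : n' < n := Nat.div_lt_self (by omega) (by omega)
        have hlocH : LocS (EB d h) f := by
          intro η
          rw [hloc η, hloc (η ∩ EB d h), Finset.inter_assoc,
            Finset.inter_eq_right.mpr (EB_mono hhT)]
        have hstep := h1 x T h n' D U f (a + ε * (1 - 1 / ((n' : ℝ) + 1))) hx0 hx1 (by omega) hD hU
          hlocH hf1 (by
            have : 1 / ((n' : ℝ) + 1) ≤ 1 := by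
              rw [div_le_one (by positivity)]
              have : (0 : ℝ) ≤ n' := Nat.cast_nonneg n'
              linarith
            have := mul_nonneg hε.le (by linarith : (0:ℝ) ≤ 1 - 1 / ((n' : ℝ) + 1))
            linarith) (by
            intro t D' U' hht htT hD' hU' hcard' hZ'
            have hm := ih U'.card (lt_of_le_of_lt hcard' hn'lt) t D' U' (hhT.trans hht) hD' hU' rfl
              (by
                have e1 : 4 ^ d * U'.card ≤ n := by
                  calc 4 ^ d * U'.card ≤ 4 ^ d * n' := Nat.mul_le_mul_left _ hcard'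
                    _ ≤ n := Nat.mul_div_le n _
                have e2 : 4 ^ d * (U'.card * T₁ ^ (2 * d)) ≤ 4 ^ d * t ^ (2 * d) := by
                  calc 4 ^ d * (U'.card * T₁ ^ (2 * d)) = (4 ^ d * U'.card) * T₁ ^ (2 * d) := by
                        ring
                    _ ≤ n * T₁ ^ (2 * d) := Nat.mul_le_mul_right _ e1
                    _ ≤ T ^ (2 * d) := by rw [← hn]; exact hcard
                    _ ≤ (2 * t) ^ (2 * d) := Nat.pow_le_pow_left (by omega) _
                    _ = 4 ^ d * t ^ (2 * d) := by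
                      rw [mul_pow, pow_mul 2 2 d]
                      norm_num
                exact Nat.le_of_mul_le_mul_left e2 (by positivity)) hZ'
            have hmono : (1 : ℝ) - 1 / ((U'.card : ℝ) + 1) ≤ 1 - 1 / ((n' : ℝ) + 1) := by
              have : (U'.card : ℝ) ≤ n' := by exact_mod_cast hcard'
              have := one_div_le_one_div_of_le (by positivity : (0:ℝ) < (U'.card : ℝ) + 1)
                (by linarith : (U'.card : ℝ) + 1 ≤ (n' : ℝ) + 1)
              linarith
            have := mul_le_mul_of_nonneg_left hmono hε.le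
            linarith) hZ
        have hp := hprob T D U (hT₁a.trans hT) hD hU (hn ▸ hn1) hZ
        rw [hn] at hp
        have hexp : Real.exp (-c * T) ≤ ε * (1 / ((n' : ℝ) + 1) - 1 / ((n : ℝ) + 1)) := by
          have hT02' := hT02 T (hT₁b.trans hT)
          have hnT : (n : ℝ) ≤ (T : ℝ) ^ (2 * d) := by
            have h1' : 1 ≤ T₁ ^ (2 * d) := Nat.one_le_pow _ _ (by omega)
            have : n ≤ T ^ (2 * d) := by
              calc n = U.card * 1 := by rw [hn, mul_one]
                _ ≤ U.card * T₁ ^ (2 * d) := Nat.mul_le_mul_left _ h1'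
                _ ≤ _ := hcard
            exact_mod_cast this
          have hnpos : (0 : ℝ) < n := by
            have : 0 < n := by omega
            exact_mod_cast this
          have hn'4 : (n' : ℝ) ≤ n / 16 := by
            have : 16 * n' ≤ n := by
              calc 16 * n' ≤ 4 ^ d * n' := Nat.mul_le_mul_right _ h4d
                _ ≤ n := Nat.mul_div_le n _
            have : (16 : ℝ) * n' ≤ n := by exact_mod_cast this
            linarith
          have hn16' : (16 : ℝ) ≤ n := by exact_mod_cast hn16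
          have e1 : 1 / (8 * (n : ℝ)) ≤ 1 / ((n' : ℝ) + 1) - 1 / ((n : ℝ) + 1) := by
            have g1 : 1 / ((n : ℝ) / 16 + 1) ≤ 1 / ((n' : ℝ) + 1) :=
              one_div_le_one_div_of_le (by positivity) (by linarith)
            have g2 : 1 / (8 * (n : ℝ)) + 1 / ((n : ℝ) + 1) ≤ 1 / ((n : ℝ) / 16 + 1) := by
              have a1 : 1 / ((n : ℝ) + 1) ≤ 1 / (n : ℝ) := one_div_le_one_div_of_le hnpos (by linarith)
              have a2 : 1 / (8 * (n : ℝ)) + 1 / (n : ℝ) = 9 / (8 * n) := by
                field_simp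
                norm_num
              have a3 : 9 / (8 * (n : ℝ)) ≤ 1 / ((n : ℝ) / 16 + 1) := by
                rw [div_le_div_iff₀ (by positivity) (by positivity)]
                nlinarith
              linarith
            linarith
          have e2 : Real.exp (-c * T) ≤ ε * (1 / (8 * (n : ℝ))) := by
            have hpos : 0 < 8 * (n : ℝ) := by positivity
            rw [mul_one_div, le_div_iff₀ hpos]
            calc Real.exp (-c * T) * (8 * (n : ℝ)) ≤ Real.exp (-c * T) * (8 * (T : ℝ) ^ (2 * d)) := by
                  apply mul_le_mul_of_nonneg_left _ (Real.exp_pos _).le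
                  linarith
              _ ≤ ε := hT02'
          exact e2.trans (mul_le_mul_of_nonneg_left e1 hε.le)
        have hsum : EE d x D (ind U) f ≤ a + ε * (1 - 1 / ((n' : ℝ) + 1)) + Real.exp (-c * T) := by
          refine hstep.trans ?_
          gcongr
        calc EE d x D (ind U) f ≤ a + ε * (1 - 1 / ((n' : ℝ) + 1)) + Real.exp (-c * T) := hsum
          _ ≤ a + ε * (1 - 1 / ((n' : ℝ) + 1)) +
              ε * (1 / ((n' : ℝ) + 1) - 1 / ((n : ℝ) + 1)) := by linarith
          _ = a + ε * (1 - 1 / ((n : ℝ) + 1)) := by ring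
  intro T D U hT hD hU hcard hZ
  have := key U.card T D U hT hD hU rfl hcard hZ
  have h0 : ε * (1 - 1 / ((U.card : ℝ) + 1)) ≤ ε := by
    have : (0 : ℝ) ≤ 1 / ((U.card : ℝ) + 1) := by positivity
    nlinarith
  linarith

end Pool.Agent.TH981.LO.Main
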