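import Pool.Agent.TH981.LO.Bas

set_option autoImplicit false

open Pool.Agent.TH981.LO
open scoped BigOperators symmDiff MeasureTheory

namespace Pool.Agent.TH981.LO.Main

theorem fe_mono {V E : Type} [DecidableEq V] [DecidableEq E] (G : MG V E) (F : Finset E)
    (A : V → ZMod 2) : Incr F (fun ω => G.fe ω A) := by
  rintro ω ω' h _ ⟨η, h1, h2⟩
  exact ⟨η, h1.trans h, h2⟩

theorem cmono (h : S_HOLLEY) : S_CMONO := by
  intro V E _ _ G w w' F F' A hF h0 hle h0' h1'
  classical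
  have hw1 : ∀ e ∈ F, w e ≤ 1 := fun e he => (hle e he).trans (h1' e (hF he))
  set w0 : E → ℝ := fun e => if e ∈ F then w e else 0 with hw0
  have e1 : ∀ B : V → ZMod 2, G.Z w F B = G.Z w0 F' B := by
    intro B
    unfold MG.Z
    rw [G.L_zero_weight (w := w0) hF (by
      intro e he
      simp only [Finset.mem_sdiff] at he
      simp [hw0, he.2]) B]
    exact G.L_congr B (fun e he => by simp [hw0, he]) (fun _ _ _ => rfl)
  have e2 : G.corr w F A = G.corr w0 F' A := by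
    unfold MG.corr
    rw [e1, e1]
  rw [e2, MG.corr_eq_fkp, MG.corr_eq_fkp]
  refine h G w0 w' F' _ ?_ ?_ h1' (fe_mono G F' A)
  · intro e he
    by_cases hh : e ∈ F
    · simp [hw0, hh, h0 e hh]
    · simp [hw0, hh]
  · intro e he
    by_cases hh : e ∈ F
    · simp [hw0, hh, hle e hh]
    · simp [hw0, hh, h0' e he]

theorem cmul (h : S_FKG) : S_CMUL := by
  intro V E _ _ G w F A B h0 h1
  classical
  rw [MG.corr_eq_fkp, MG.corr_eq_fkp, MG.corr_eq_fkp]
  refine (h G w F _ _ h0 h1 (fe_mono G F A) (fe_mono G F B)).trans ?_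
  refine G.fkp_imp h0 h1 ?_
  rintro ω _ ⟨⟨η, a1, a2⟩, ⟨ξ, b1, b2⟩⟩
  refine ⟨η ∆ ξ, ?_, ?_⟩
  · intro e he
    rcases Finset.mem_symmDiff.mp he with h | h
    · exact a1 h.1
    · exact b1 h.1
  · rw [MG.bd_symmDiff, a2, b2]

end Pool.Agent.TH981.LO.Main
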