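import Mathlib

/-!
# Loop O(1) model: definitions (project LO, seat helper981)

Abstract layer: a finite or infinite multigraph `G : MG V E` (vertex type `V`, edge type `E`,
two endpoints for every edge).  Configurations are finite sets of edges.  Source sets are
functions `V → ZMod 2`.

Lattice layer: `Vt d = Fin d → ℤ`, `Ed d = Vt d × Fin d`; the edge `(v,i)` joins `v` and `v + e_i`.
-/

set_option autoImplicit false

namespace Pool.Agent.TH981.LO

open scoped BigOperators MeasureTheory

/-- A multigraph with vertex type `V` and edge type `E`. -/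
structure MG (V E : Type) where
  /-- first endpoint -/
  s : E → V
  /-- second endpoint -/
  t : E → V

/-- product weight of the sub-configuration `ω` of `F`: Bernoulli with parameters `w e`. -/
noncomputable def bw {E : Type} [DecidableEq E] (w : E → ℝ) (F ω : Finset E) : ℝ :=
  (∏ e ∈ ω, w e) * ∏ e ∈ F \ ω, (1 - w e)

/-- the source function with sources `a` and `b` -/
def two {V : Type} [DecidableEq V] (a b : V) : V → ZMod 2 := Pi.single a 1 + Pi.single b 1

/-- the source function of a finite set -/
def ind {V : Type} [DecidableEq V] (U : Finset V) : V → ZMod 2 := fun v => if v ∈ U then 1 else 0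

namespace MG

variable {V E : Type} [DecidableEq V] [DecidableEq E] (G : MG V E)

/-- incidence vector mod 2 of an edge -/
def inc (e : E) : V → ZMod 2 := two (G.s e) (G.t e)

/-- source function of a configuration: parity of the degree -/
def bd (η : Finset E) : V → ZMod 2 := ∑ e ∈ η, G.inc e

open Classical in
/-- unnormalised loop O(1) sum with edge weights `w`, domain `F`, sources `A` -/
noncomputable def L (w : E → ℝ) (F : Finset E) (A : V → ZMod 2) (f : Finset E → ℝ) : ℝ :=
  ∑ η ∈ F.powerset with G.bd η = A, (∏ e ∈ η, w e) * f η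

/-- partition function with sources `A` -/
noncomputable def Z (w : E → ℝ) (F : Finset E) (A : V → ZMod 2) : ℝ := G.L w F A (fun _ => 1)

/-- correlation function (Ising correlation of the source set `A`) -/
noncomputable def corr (w : E → ℝ) (F : Finset E) (A : V → ZMod 2) : ℝ := G.Z w F A / G.Z w F 0

/-- expectation in the loop O(1) model with sources `A` -/
noncomputable def ex (w : E → ℝ) (F : Finset E) (A : V → ZMod 2) (f : Finset E → ℝ) : ℝ :=
  G.L w F A f / G.Z w F A

open Classical in
/-- unnormalised sum over pairs `η ⊆ ω ⊆ F`, `bd η = A`, with weight `bw w F ω` -/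
noncomputable def PS (w : E → ℝ) (F : Finset E) (A : V → ZMod 2)
    (h : Finset E → Finset E → ℝ) : ℝ :=
  ∑ ω ∈ F.powerset, bw w F ω * ∑ η ∈ ω.powerset with G.bd η = A, h ω η

/-- `ω` contains a configuration with source function `A` -/
def fe (ω : Finset E) (A : V → ZMod 2) : Prop := ∃ η, η ⊆ ω ∧ G.bd η = A

open Classical in
/-- random-cluster (FK–Ising) probability of the event `P` -/
noncomputable def fkp (w : E → ℝ) (F : Finset E) (P : Finset E → Prop) : ℝ :=
  G.PS w F 0 (fun ω _ => if P ω then 1 else 0) / G.Z w F 0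

/-- `a` and `b` are the two endpoints of some edge of `ω` -/
def adj (ω : Finset E) (a b : V) : Prop :=
  ∃ e ∈ ω, (G.s e = a ∧ G.t e = b) ∨ (G.s e = b ∧ G.t e = a)

/-- connection in `ω` -/
def Cn (ω : Finset E) : V → V → Prop := Relation.ReflTransGen (G.adj ω)

open Classical in
/-- the (finite) set of vertices connected to `U` in `ω` -/
noncomputable def clF (ω : Finset E) (U : Finset V) : Finset V :=
  (U ∪ ω.image G.s ∪ ω.image G.t).filter (fun v => ∃ u ∈ U, G.Cn ω u v)

/-- edges of `F` touching `κ` -/
def tch (F : Finset E) (κ : Finset V) : Finset E := F.filter (fun e => G.s e ∈ κ ∨ G.t e ∈ κ)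

/-- edges of `F` not touching `κ` -/
def off (F : Finset E) (κ : Finset V) : Finset E := F.filter (fun e => G.s e ∉ κ ∧ G.t e ∉ κ)

/-- edges of `F` with both endpoints in `S` -/
def ins (F : Finset E) (S : Finset V) : Finset E := F.filter (fun e => G.s e ∈ S ∧ G.t e ∈ S)

/-- edges of `F` with exactly one endpoint in `S` -/
def cut (F : Finset E) (S : Finset V) : Finset E :=
  F.filter (fun e => (G.s e ∈ S ∧ G.t e ∉ S) ∨ (G.s e ∉ S ∧ G.t e ∈ S))

/-- inner endpoint of a cut edge -/
def inn (S : Finset V) (e : E) : V := if G.s e ∈ S then G.s e else G.t e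

/-- outer endpoint of a cut edge -/
def out (S : Finset V) (e : E) : V := if G.s e ∈ S then G.t e else G.s e

/-- every edge of `ω` is connected to `U` in `ω` -/
def con (ω : Finset E) (U : Finset V) : Prop := ∀ e ∈ ω, G.s e ∈ G.clF ω U

end MG

/-! ### The lattice -/

/-- vertices of `ℤ^d` -/
abbrev Vt (d : ℕ) : Type := Fin d → ℤ

/-- edges of `ℤ^d`: `(v,i)` is the edge from `v` to `v + e_i` -/
abbrev Ed (d : ℕ) : Type := (Fin d → ℤ) × Fin d

/-- the unit vector `e_i` -/
def ev {d : ℕ} (i : Fin d) : Vt d := Pi.single i 1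

/-- the graph `ℤ^d` -/
def lat (d : ℕ) : MG (Vt d) (Ed d) where
  s := fun e => e.1
  t := fun e => e.1 + ev e.2

/-- sup norm -/
def nm {d : ℕ} (v : Vt d) : ℕ := Finset.univ.sup (fun i => (v i).natAbs)

/-- the box `{v : nm v ≤ n}` -/
noncomputable def box (d n : ℕ) : Finset (Vt d) := Finset.Icc (fun _ => -(n : ℤ)) (fun _ => (n : ℤ))

/-- edges with both endpoints in the box `box d n` -/
noncomputable def EB (d n : ℕ) : Finset (Ed d) :=
  (box d n ×ˢ (Finset.univ : Finset (Fin d))).filter (fun e => e.1 + ev e.2 ∈ box d n)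

/-- all lattice edges touching the finite vertex set `S` -/
def TE {d : ℕ} (S : Finset (Vt d)) : Finset (Ed d) :=
  (S ×ˢ (Finset.univ : Finset (Fin d))) ∪
    (S ×ˢ (Finset.univ : Finset (Fin d))).image (fun e => (e.1 - ev e.2, e.2))

/-- translation of edges -/
def shE {d : ℕ} (z : Vt d) : Ed d ≃ Ed d where
  toFun := fun e => (e.1 + z, e.2)
  invFun := fun e => (e.1 - z, e.2)
  left_inv := fun e => by simp
  right_inv := fun e => by simp

/-- translation of configurations -/
def shF {d : ℕ} (z : Vt d) (η : Finset (Ed d)) : Finset (Ed d) := η.map (shE z).toEmbedding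

/-- loop O(1) sum on `ℤ^d` with the constant weight `x` -/
noncomputable abbrev LL (d : ℕ) (x : ℝ) (D : Finset (Ed d)) (A : Vt d → ZMod 2)
    (f : Finset (Ed d) → ℝ) : ℝ := (lat d).L (fun _ => x) D A f

/-- partition function on `ℤ^d` with the constant weight `x` -/
noncomputable abbrev ZZ (d : ℕ) (x : ℝ) (D : Finset (Ed d)) (A : Vt d → ZMod 2) : ℝ :=
  (lat d).Z (fun _ => x) D A

/-- correlation on `ℤ^d` with the constant weight `x` -/
noncomputable abbrev CC (d : ℕ) (x : ℝ) (D : Finset (Ed d)) (A : Vt d → ZMod 2) : ℝ :=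
  (lat d).corr (fun _ => x) D A

/-- loop O(1) expectation on `ℤ^d` with the constant weight `x` -/
noncomputable abbrev EE (d : ℕ) (x : ℝ) (D : Finset (Ed d)) (A : Vt d → ZMod 2)
    (f : Finset (Ed d) → ℝ) : ℝ := (lat d).ex (fun _ => x) D A f

/-- the functional `φ_x(S)` of Duminil-Copin and Tassion (Ising case) -/
noncomputable def phi (d : ℕ) (x : ℝ) (S : Finset (Vt d)) : ℝ :=
  ∑ e ∈ (lat d).cut (TE S) S,
    x * CC d x ((lat d).ins (TE S) S) (two 0 ((lat d).inn S e))

/-- there is a finite `S ∋ 0` with `φ_x(S) < 1` -/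
def HS (d : ℕ) (x : ℝ) : Prop := ∃ S : Finset (Vt d), 0 ∈ S ∧ phi d x S < 1

/-! ### The Ising model with plus boundary conditions and its critical point -/

/-- the spin at `v` of the configuration whose minus spins are the sites of `M` -/
def spin {d : ℕ} (M : Finset (Vt d)) (v : Vt d) : ℝ := if v ∈ M then -1 else 1

/-- the Boltzmann weight of the Ising configuration in `box d n` with plus boundary conditions
whose minus spins are the sites of `M ⊆ box d n`: the product over all edges touching the box -/
noncomputable def isingW (d : ℕ) (β : ℝ) (n : ℕ) (M : Finset (Vt d)) : ℝ :=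
  Real.exp (β * ∑ e ∈ TE (box d n), spin M e.1 * spin M (e.1 + ev e.2))

/-- the magnetization at the origin in `box d n` with plus boundary conditions -/
noncomputable def magPlus (d : ℕ) (β : ℝ) (n : ℕ) : ℝ :=
  (∑ M ∈ (box d n).powerset, spin M 0 * isingW d β n M) /
    ∑ M ∈ (box d n).powerset, isingW d β n M

/-- the spontaneous magnetization (the sequence `magPlus d β n` is nonincreasing in `n`) -/
noncomputable def mStar (d : ℕ) (β : ℝ) : ℝ := ⨅ n : ℕ, magPlus d β n

/-- the critical inverse temperature of the nearest-neighbour Ising model on `ℤ^d` -/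
noncomputable def betaC (d : ℕ) : ℝ := sInf {β : ℝ | 0 ≤ β ∧ 0 < mStar d β}

/-! ### Gibbs measures of the loop O(1) model -/

/-- configurations on all edges of `ℤ^d` -/
abbrev Om (d : ℕ) : Type := Ed d → Bool

/-- the set of open edges of `η` in the finite set `S` -/
def restr {d : ℕ} (S : Finset (Ed d)) (η : Om d) : Finset (Ed d) := S.filter (fun e => η e = true)

/-- parity of the number of open edges of `η` outside `S` incident to `v` -/
def outPar {d : ℕ} (S : Finset (Ed d)) (η : Om d) (v : Vt d) : ZMod 2 :=
  (((TE {v}).filter (fun e => e ∉ S ∧ η e = true)).card : ZMod 2)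

/-- unnormalised weight of `ξ` in the loop O(1) model on the finite graph with vertex set `VG`,
whose source set is `{v ∈ VG : b v = 1}` -/
noncomputable def loopW {d : ℕ} (x : ℝ) (VG : Finset (Vt d)) (b : Vt d → ZMod 2)
    (ξ : Finset (Ed d)) : ℝ :=
  if ∀ v ∈ VG, (lat d).bd ξ v = b v then x ^ ξ.card else 0

/-- the loop O(1) probability of `ξ` on the finite graph with vertex set `VG` and edge set `S`,
whose source set is `{v ∈ VG : b v = 1}` -/
noncomputable def ell {d : ℕ} (x : ℝ) (S : Finset (Ed d)) (VG : Finset (Vt d)) (b : Vt d → ZMod 2)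
    (ξ : Finset (Ed d)) : ℝ :=
  loopW x VG b ξ / ∑ ξ' ∈ S.powerset, loopW x VG b ξ'

/-- the σ-algebra generated by the edges outside `S` -/
@[reducible] def outS {d : ℕ} (S : Finset (Ed d)) : MeasurableSpace (Om d) :=
  MeasurableSpace.comap (fun (η : Om d) (e : {e : Ed d // e ∉ S}) => η e.1) inferInstance

/-- The Gibbs (DLR) property: for every finite subgraph `(VG, S)`, every configuration `ξ` on `S`
and every event `F` that depends only on the edges outside `S`,
`μ(η|_S = ξ, F) = ∫_F ℓ^{B(η)}_{(VG,S),x}[ξ] dμ(η)`, where `B(η)` is the set of vertices of `VG`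
with an odd number of open edges outside `S` incident to them. -/
def IsGibbs (d : ℕ) (x : ℝ) (μ : MeasureTheory.Measure (Om d)) : Prop :=
  ∀ (S : Finset (Ed d)) (VG : Finset (Vt d)),
    (∀ e ∈ S, e.1 ∈ VG ∧ e.1 + ev e.2 ∈ VG) →
    ∀ ξ ∈ S.powerset, ∀ F : Set (Om d), MeasurableSet[outS S] F →
      μ ({η | restr S η = ξ} ∩ F) =
        ∫⁻ η in F, ENNReal.ofReal (ell x S VG (outPar S η) ξ) ∂μ

/-- translation of infinite configurations: `(shO z η) e = η (e - z)` -/
def shO {d : ℕ} (z : Vt d) (η : Om d) : Om d := fun e => η ((shE z).symm e)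

/-- `f` depends only on the edges of `S` -/
def LocS {E : Type} [DecidableEq E] {α : Type} (S : Finset E) (f : Finset E → α) : Prop :=
  ∀ η, f η = f (η ∩ S)

end Pool.Agent.TH981.LO
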