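import Pool.Agent.TH981.LO.Bas

set_option autoImplicit false

open Pool.Agent.TH981.LO
open scoped BigOperators symmDiff MeasureTheory

namespace Pool.Agent.TH981.LO.Main

theorem EE_sub_smul {d : ℕ} (x : ℝ) (D : Finset (Ed d)) (A : Vt d → ZMod 2)
    (f g : Finset (Ed d) → ℝ) (c : ℝ) :
    EE d x D A (fun η => f η - c * g η) = EE d x D A f - c * EE d x D A g := by
  have h1 : LL d x D A (fun η => f η - c * g η) = LL d x D A f + LL d x D A (fun η => (-c) * g η) := by
    rw [← MG.L_add]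
    congr 1
    funext η
    ring
  have h2 : LL d x D A (fun η => (-c) * g η) = (-c) * LL d x D A g := MG.L_smul _ _ _ _ _ _
  unfold EE MG.ex
  change LL d x D A (fun η => f η - c * g η) / _ = _
  rw [h1, h2]
  change _ = LL d x D A f / _ - c * (LL d x D A g / _)
  ring

theorem mem_EB_succ_of {d m : ℕ} {i : Fin d} {e : Ed d} (h : e ∈ EB d m) :
    ((e.1 - ev i, e.2) : Ed d) ∈ EB d (m + 1) := by
  rw [mem_EB] at h ⊢
  refine ⟨?_, ?_⟩
  · have := nm_sub_le e.1 (ev i)
    rw [nm_ev] at this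
    simp only
    omega
  · have h1 : (e.1 - ev i + ev e.2 : Vt d) = (e.1 + ev e.2) - ev i := by abel
    have := nm_sub_le (e.1 + ev e.2) (ev i)
    rw [nm_ev] at this
    simp only
    rw [h1]
    omega

theorem shF_inter_loc {d m n : ℕ} (i : Fin d) (hmn : m + 1 ≤ n) (η : Finset (Ed d)) :
    shF (ev i) (η ∩ EB d n) ∩ EB d m = shF (ev i) η ∩ EB d m := by
  ext e
  simp only [Finset.mem_inter, mem_shF]
  constructor
  · rintro ⟨⟨h1, _⟩, h2⟩
    exact ⟨h1, h2⟩
  · rintro ⟨h1, h2⟩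
    exact ⟨⟨h1, EB_mono hmn (mem_EB_succ_of h2)⟩, h2⟩

theorem fv1 (d : ℕ) (x : ℝ) (hd : 2 ≤ d) (hx0 : 0 < x) (hx1 : x < 1) (h1 : S_BOOT d x)
    (h2 : S_AC d x) : S_FV1 d x := by
  classical
  obtain ⟨K, hB⟩ := h1
  obtain ⟨C, hC0, hA⟩ := h2 K
  refine ⟨C, hC0, ?_⟩
  intro m ε hε
  obtain ⟨T0, hT0⟩ := hB (ε / 2) (by linarith)
  obtain ⟨T0', hT0'⟩ := hA m (ε / 2) (by linarith)
  set T1 : ℕ := max (max T0 T0') (m + 1) with hT1
  have hT1a : T0 ≤ T1 := le_trans (le_max_left _ _) (le_max_left _ _)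
  have hT1b : T0' ≤ T1 := le_trans (le_max_right _ _) (le_max_left _ _)
  have hT1c : m + 1 ≤ T1 := le_max_right _ _
  have hT1d : 1 ≤ T1 := le_trans (Nat.le_add_left 1 m) hT1c
  refine ⟨3 * T1 ^ 2, ?_⟩
  intro R U i P hR hU hZ hP
  have hRT : T1 ≤ R := by nlinarith
  have hR1 : 1 ≤ R := le_trans hT1d hRT
  let f : Finset (Ed d) → ℝ := fun η =>
    (if P (shF (ev i) η) then (1 : ℝ) else 0) - C * (if P η then (1 : ℝ) else 0)
  have hloc : LocS (EB d T1) f := by
    intro η
    have e1 : P η = P (η ∩ EB d T1) := by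
      rw [hP η, hP (η ∩ EB d T1), Finset.inter_assoc,
        Finset.inter_eq_right.mpr (EB_mono (by omega : m ≤ T1))]
    have e2 : P (shF (ev i) η) = P (shF (ev i) (η ∩ EB d T1)) := by
      rw [hP (shF (ev i) η), hP (shF (ev i) (η ∩ EB d T1)), shF_inter_loc i hT1c]
    simp only [f, e2]
    simp only [← e1]
  have hle : ∀ η, f η ≤ 1 := by
    intro η
    simp only [f]
    split_ifs <;> linarith
  have hmain := hT0 T1 f (ε / 2) hT1a hloc hle (by linarith) (by
    intro T D U' hT hD hU' hcard hZ'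
    have := hT0' T D U' i P (le_trans hT1b hT) hD hU' hcard hZ' hP
    have e := EE_sub_smul x D (ind U') (fun η => if P (shF (ev i) η) then (1 : ℝ) else 0)
      (fun η => if P η then (1 : ℝ) else 0) C
    simp only [f]
    rw [e]
    linarith) R (EB d R) U hRT (Finset.Subset.refl _) hU (by
      have hsub : U ⊆ box d R := by
        intro u hu
        rw [mem_box, hU u hu]
      have hc : U.card ≤ (2 * R + 1) ^ d := by
        rw [← card_box]
        exact Finset.card_le_card hsub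
      have hc2 : U.card ≤ (3 * R) ^ d := le_trans hc (Nat.pow_le_pow_left (by omega) d)
      have h3 : (3 * T1 ^ 2) ^ d ≤ R ^ d := Nat.pow_le_pow_left hR d
      calc U.card * T1 ^ (2 * d) ≤ (3 * R) ^ d * T1 ^ (2 * d) := Nat.mul_le_mul_right _ hc2
        _ = R ^ d * (3 * T1 ^ 2) ^ d := by
          rw [mul_pow, mul_pow, ← pow_mul]
          ring
        _ ≤ R ^ d * R ^ d := Nat.mul_le_mul_left _ h3
        _ = R ^ (2 * d) := by rw [← pow_add]; ring_nf) hZ
  have e := EE_sub_smul x (EB d R) (ind U) (fun η => if P (shF (ev i) η) then (1 : ℝ) else 0)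
      (fun η => if P η then (1 : ℝ) else 0) C
  simp only [f] at hmain
  rw [e] at hmain
  linarith

end Pool.Agent.TH981.LO.Main
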