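import Pool.Agent.TH981.LO.Bas

set_option autoImplicit false

open Pool.Agent.TH981.LO
open scoped BigOperators symmDiff MeasureTheory

namespace Pool.Agent.TH981.LO.Main

theorem sharp (d : ℕ) (hd : 2 ≤ d) (h1 : S_MAGEQ d) (h2 : S_MAGLB d) : S_SHARP d := by
  intro x hx0 hx
  by_contra hH
  have hphi : ∀ S : Finset (Vt d), 0 ∈ S → 1 ≤ phi d x S := by
    intro S hS
    by_contra hlt
    exact hH ⟨S, hS, not_le.mp hlt⟩
  obtain ⟨x', hx', hx'2⟩ := exists_between hx
  have hx'1 : x' < 1 := hx'2.trans (Real.tanh_lt_one _)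
  have hx'0 : 0 < x' := hx0.trans hx'
  set β' := Real.artanh x' with hβ'
  have htan : Real.tanh β' = x' := Real.tanh_artanh ⟨by linarith, hx'1⟩
  have hβ0 : 0 < β' := by
    have h := Real.artanh_lt_artanh (x := 0) (y := x') (by norm_num) hx'1 hx'0
    simpa using h
  have hδ : 0 < 1 - Real.exp (-(x' - x) / 4) := by
    have : Real.exp (-(x' - x) / 4) < 1 := by
      rw [Real.exp_lt_one_iff]
      linarith
    linarith
  have hmag : ∀ n : ℕ, 1 - Real.exp (-(x' - x) / 4) ≤ magPlus d β' n := by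
    intro n
    rw [h1 β' n hβ0.le, htan]
    exact h2 x x' n hx0 hx' hx'1 hphi
  have hstar : 0 < mStar d β' := lt_of_lt_of_le hδ (le_ciInf hmag)
  have hbc : betaC d ≤ β' := csInf_le ⟨0, fun b hb => hb.1⟩ ⟨hβ0.le, hstar⟩
  have h3 := Real.artanh_lt_artanh (x := x') (y := Real.tanh (betaC d)) (by linarith)
    (Real.tanh_lt_one _) hx'2
  rw [Real.artanh_tanh] at h3
  exact absurd hbc (not_le.mpr h3)

end Pool.Agent.TH981.LO.Main
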