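import Pool.Agent.TH981.LO.Bas

set_option autoImplicit false

open Pool.Agent.TH981.LO
open scoped BigOperators symmDiff MeasureTheory

namespace Pool.Agent.TH981.LO.Main

open Classical in
/-- the tail of the `η`-cluster in the model with sources -/
theorem EE_tail {d : ℕ} {x : ℝ} (hx0 : 0 < x) (hx1 : x < 1) {c C : ℝ}
    (hST : ∀ (D η₀ : Finset (Ed d)) (U : Finset (Vt d)) (L : ℕ), η₀ ⊆ D → (lat d).bd η₀ = ind U →
      (lat d).PS (fun _ => x) D (ind U)
          (fun ω _ => if L ≤ ((lat d).clF ω U).card then 1 else 0) ≤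
        C ^ U.card * Real.exp (-c * L) * (x⁻¹) ^ η₀.card * ZZ d x D (ind U))
    (D η₀ : Finset (Ed d)) (U : Finset (Vt d)) (L : ℕ) (hη : η₀ ⊆ D)
    (hb : (lat d).bd η₀ = ind U) (hZ : ZZ d x D (ind U) ≠ 0) :
    EE d x D (ind U) (fun η => if L ≤ ((lat d).clF η U).card then 1 else 0) ≤
      C ^ U.card * Real.exp (-c * L) * (x⁻¹) ^ η₀.card := by
  have hZ0 : 0 ≤ ZZ d x D (ind U) := (lat d).Z_nonneg (ind U) (fun _ _ => hx0.le)
  have hZp : 0 < ZZ d x D (ind U) := lt_of_le_of_ne hZ0 (Ne.symm hZ)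
  have h1 : LL d x D (ind U) (fun η => if L ≤ ((lat d).clF η U).card then 1 else 0) ≤
      (lat d).PS (fun _ => x) D (ind U)
          (fun ω _ => if L ≤ ((lat d).clF ω U).card then 1 else 0) := by
    change (lat d).L _ _ _ _ ≤ _
    rw [← (lat d).PS_eta]
    refine (lat d).PS_mono (ind U) (fun _ _ => hx0.le) (fun _ _ => hx1.le) ?_
    intro ω _ η hη _
    have hsub : ((lat d).clF η U).card ≤ ((lat d).clF ω U).card :=
      Finset.card_le_card ((lat d).clF_mono hη (Finset.Subset.refl _))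
    by_cases hL : L ≤ ((lat d).clF η U).card
    · simp [hL, hL.trans hsub]
    · simp only [hL, if_false]
      split_ifs <;> norm_num
  have h2 := h1.trans (hST D η₀ U L hη hb)
  change LL d x D (ind U) _ / ZZ d x D (ind U) ≤ _
  rw [div_le_iff₀ hZp]
  exact h2

theorem stepprob (d : ℕ) (x : ℝ) (hd : 2 ≤ d) (hx0 : 0 < x) (hx1 : x < 1) (h1 : S_STAIL d x)
    (h2 : S_TJ d) (h3 : S_EVEN d) : S_STEPPROB d x := by
  classical
  obtain ⟨c, hc, C, hC, hST⟩ := h1
  set lam := Real.log (x⁻¹) with hlam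
  have hlam0 : 0 < lam := Real.log_pos ((one_lt_inv₀ hx0).mpr hx1)
  set c' : ℝ := c / (12 * 4 ^ d) with hc'
  have h4 : (0 : ℝ) < 4 ^ d := by positivity
  have hc'0 : 0 < c' := by positivity
  obtain ⟨Kd, hKd0, hTJ⟩ := h2 (c' / lam) (by positivity)
  obtain ⟨K, hK⟩ := exists_nat_ge (Kd * lam / c' + 1)
  obtain ⟨T₀, hT₀⟩ := exists_nat_ge (Real.log C / c' + 2)
  refine ⟨K, c', hc'0, T₀, ?_⟩
  intro T D U hT hD hU hKU hZ
  have heven := h3 x D U hZ
  have hUbox : U ⊆ box d T := by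
    intro u hu
    rw [mem_box, hU u hu]
  obtain ⟨η₀, hη₀, hb, hcard⟩ := hTJ T U hUbox heven
  set n := U.card with hn
  set L : ℕ := (n / 4 ^ d + 1) * (T - (T + 1) / 2) with hL
  have hlogC : 0 ≤ Real.log C := Real.log_nonneg hC
  have hTr : Real.log C / c' + 2 ≤ (T : ℝ) := hT₀.trans (by exact_mod_cast hT)
  have hT2 : (2 : ℝ) ≤ T := by
    have : 0 ≤ Real.log C / c' := by positivity
    linarith
  have hT2n : 2 ≤ T := by exact_mod_cast hT2
  have hK1 : (1 : ℝ) ≤ K := by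
    have : 0 ≤ Kd * lam / c' := by positivity
    linarith
  have hnK : (K : ℝ) ≤ n := by exact_mod_cast hKU
  have hn1 : (1 : ℝ) ≤ n := hK1.trans hnK
  have hlogCT : Real.log C ≤ c' * T := by
    have : Real.log C / c' ≤ T := by linarith
    rw [div_le_iff₀ hc'0] at this
    linarith
  have hKd : Kd * lam ≤ c' * n := by
    have : Kd * lam / c' ≤ n := by linarith
    rw [div_le_iff₀ hc'0] at this
    linarith
  have hLb : (n : ℝ) / 4 ^ d * (T / 3) ≤ (L : ℝ) := by
    rw [hL]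
    push_cast
    have e1 : (n : ℝ) / 4 ^ d ≤ ((n / 4 ^ d : ℕ) : ℝ) + 1 := by
      have := Nat.lt_div_mul_add (a := n) (b := 4 ^ d) (by positivity)
      have h5 : (n : ℝ) ≤ ((n / 4 ^ d : ℕ) : ℝ) * 4 ^ d + 4 ^ d := by
        have : n ≤ n / 4 ^ d * 4 ^ d + 4 ^ d := this.le
        exact_mod_cast this
      rw [div_le_iff₀ h4]
      linarith
    have e2 : (T : ℝ) / 3 ≤ ((T - (T + 1) / 2 : ℕ) : ℝ) := by
      have : T ≤ 3 * (T - (T + 1) / 2) := by omega
      have : (T : ℝ) ≤ 3 * ((T - (T + 1) / 2 : ℕ) : ℝ) := by exact_mod_cast this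
      linarith
    have e3 : (0 : ℝ) ≤ (n : ℝ) / 4 ^ d := by positivity
    have e4 : ((T - (T + 1) / 2 : ℕ) : ℝ) ≥ 0 := Nat.cast_nonneg _
    calc (n : ℝ) / 4 ^ d * (T / 3) ≤ (n : ℝ) / 4 ^ d * ((T - (T + 1) / 2 : ℕ) : ℝ) :=
          mul_le_mul_of_nonneg_left e2 e3
      _ ≤ (((n / 4 ^ d : ℕ) : ℝ) + 1) * ((T - (T + 1) / 2 : ℕ) : ℝ) :=
          mul_le_mul_of_nonneg_right e1 e4
  have hmain := EE_tail hx0 hx1 hST D η₀ U L (hη₀.trans hD) hb hZ
  refine hmain.trans ?_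
  have hCpos : 0 < C := by linarith
  have eC : C ^ U.card = Real.exp (n * Real.log C) := by
    rw [mul_comm, Real.exp_mul, Real.exp_log hCpos, Real.rpow_natCast]
  have ex' : (x⁻¹) ^ η₀.card = Real.exp (η₀.card * lam) := by
    rw [mul_comm, Real.exp_mul, hlam, Real.exp_log (by positivity), Real.rpow_natCast]
  rw [eC, ex', ← Real.exp_add, ← Real.exp_add, Real.exp_le_exp]
  have a1 : (n : ℝ) * Real.log C ≤ n * (c' * T) :=
    mul_le_mul_of_nonneg_left hlogCT (by positivity)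
  have a2 : (η₀.card : ℝ) * lam ≤ c' * n * T + Kd * lam * T := by
    calc (η₀.card : ℝ) * lam ≤ (c' / lam * n * T + Kd * T) * lam :=
          mul_le_mul_of_nonneg_right hcard hlam0.le
      _ = c' * n * T + Kd * lam * T := by
          field_simp
  have a3 : Kd * lam * T ≤ c' * n * T := mul_le_mul_of_nonneg_right hKd (by positivity)
  have a4 : 4 * (c' * n * T) ≤ c * L := by
    calc 4 * (c' * n * T) = c * ((n : ℝ) / 4 ^ d * (T / 3)) := by
          rw [hc']
          field_simp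
          norm_num
      _ ≤ c * L := mul_le_mul_of_nonneg_left hLb hc.le
  have a5 : c' * T ≤ c' * n * T := by
    have : 0 ≤ c' * T := by positivity
    nlinarith
  nlinarith

end Pool.Agent.TH981.LO.Main
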