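import Pool.Agent.TH981.LO.Bas
import Pool.Agent.TH981.LO.Sharp
import Pool.Agent.TH981.LO.Corr
import Pool.Agent.TH981.LO.StepProb
import Pool.Agent.TH981.LO.Boot
import Pool.Agent.TH981.LO.Ac
import Pool.Agent.TH981.LO.Fv1
import Pool.Agent.TH304.J448
import Pool.Agent.TH635.J450
import Pool.Agent.TH897.J451
import Pool.Agent.TH897.J452
import Pool.Agent.TH635.J453
import Pool.Agent.TH897.J454
import Pool.Agent.TH429.J455
import Pool.Agent.TH429.J456
import Pool.Agent.TH897.J457
import Pool.Agent.TH635.J459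
import Pool.Agent.TH429.J461
import Pool.Agent.TH858.J462
import Pool.Agent.TH635.J466
import Pool.Agent.TH429.J468
import Pool.Agent.TH247.J470
import Pool.Agent.TH883.J471
import Pool.Agent.TH304.J474
import Pool.Agent.TH241.J477
import Pool.Agent.TH241.J481
import Pool.Agent.TH429.J483
import Pool.Agent.TH241.J485
import Pool.Agent.TH304.J491
import Pool.Agent.TH159.J492
import Pool.Agent.TH883.J493
import Pool.Agent.TH883.J494
import Pool.Agent.TH883.J495
import Pool.Agent.TH159.J496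
import Pool.Agent.TH159.J497
import Pool.Agent.TH304.J498
import Pool.Agent.TH897.J458
import Pool.Agent.TH551.J463
import Pool.Agent.TH858.J464
import Pool.Agent.TH551.J465
import Pool.Agent.TH429.J467
import Pool.Agent.TH883.J469
import Pool.Agent.TH429.J479
import Pool.Agent.TH883.J490

set_option autoImplicit false

open Pool.Agent.TH981.LO
open MeasureTheory

namespace Pool.Agent.TH981.LO.Main

/-- uniqueness and existence of the Gibbs measure of the subcritical loop O(1) model -/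
theorem assembly (d : ℕ) (hd : 2 ≤ d) (x : ℝ) (hx0 : 0 < x) (hx : x < Real.tanh (betaC d)) :
    ∃! μ : Measure (Om d), IsProbabilityMeasure μ ∧ IsGibbs d x μ := by
  have hx1 : x < 1 := hx.trans (Real.tanh_lt_one _)
  have H1 : S_HOLLEY := TH304.J448.holley
  have H2 : S_FKG := TH304.J448.fkg
  have H3 : S_CMONO := cmono H1
  have H4 : S_CMUL := cmul H2
  have H5 : S_SL := TH635.J450.simonLieb H3
  have H6 : S_MARK := TH897.J451.mark
  have H7 : S_MARKL := TH897.J451.markl H6
  have H8 : S_EXPL := TH897.J452.expl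
  have H9 : S_QI := TH635.J453.qi H1
  have H10 : S_TRUNC := TH897.J454.trunc H6 H3
  have H11 : S_DER := TH429.J455.der
  have H12 : S_DERLB := TH429.J456.derlb H2
  have H13 : S_MAGEQ d := TH897.J457.mageq d hd
  have H14 : S_MWD d := TH897.J458.mwd d hd H6 H3
  have H15 : S_MAGLB d := TH635.J459.maglb d hd H11 H12 H14
  have H16 : S_SHARP d := sharp d hd H13 H15
  have HH : HS d x := H16 x hx0 hx
  have H17 : S_UD d x := TH429.J461.ud H5 H3 d x hx0 hx1 HH
  have H18 : S_DEC d x := TH429.J461.dec d x hx0 hx1 H17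
  have H19 : S_CLOC d x := TH858.J462.cloc H10 H3 d x hx0 hx1 H18
  have H20 : S_LOC d x := TH551.J463.loc d x hx0 hx1 H19
  have H21 : S_PF d x := TH858.J464.pf d x hx0 hx1 H19
  have H22 : S_BADP d x := TH551.J465.badp d x hx0 hx1 H17
  have H23 : S_BADS d x := TH635.J466.bads H9 d x hx0 hx1 H22
  have H24 : S_CT d x := TH883.J469.ct d x hx0 hx1 H23 (TH429.J467.blkLem d) (TH429.J468.animal d) (TH429.J468.sep d)
  have H25 : S_STAIL d x := TH247.J470.stail d x hx0 hx1 H24
  have H26 : S_TJ d := TH247.J470.tj d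
  have H27 : S_EVEN d := TH429.J468.even d
  have H28 : S_STEPDET d := TH883.J471.stepdet H8 d
  have H29 : S_STEPPROB d x := stepprob d x hd hx0 hx1 H25 H26 H27
  have H30 : S_BOOT d x := boot d x hd hx0 hx1 H28 H29
  have G1 : S_SG1 d := TH304.J474.sg1 d
  have G2 : S_SG2 d := TH304.J474.sg2 d
  have G3 : S_SG3 d := TH241.J477.sg3 d G1
  have G4 : S_SG4 d x := TH429.J479.sg4 d x hx0 hx1 H21
  have G5 : S_SG5 d := TH241.J481.sg5 d G1 G2
  have G6 : S_SG6 d := TH429.J483.sg6 d
  have G7 : S_SG7 d := TH429.J483.sg7 d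
  have H31 : S_SURG d x := TH241.J485.surg d x hx0 hx1 H7 G1 G2 G3 G4 G5 G6 G7 H20
  have H32 : S_AC d x := ac d x hd hx0 hx1 H31 H25 H26 H27
  have H33 : S_FV1 d x := fv1 d x hd hx0 hx1 H30 H32
  have H34 : S_FV2 d x := TH883.J490.fv2 d x hd hx0 hx1 H7 H25 H26 H27 H20
  have D1 : S_TRANS d x := TH304.J491.trans d x hx0
  have D2 : S_MAPG d x := TH159.J492.mapg d x hx0
  have D3 : S_SUBG d x := TH883.J493.subg d x hx0
  have D4 : S_ACG d x := TH883.J494.acg d x hx0 H33 D1
  have D5 : S_TI d x := TH159.J496.ti d x TH883.J495.hahn D2 D3 D4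
  have D6 : S_UNIQ d x := TH159.J497.uniq d x hx0 H34 D1 D5
  obtain ⟨μ, hμ1, hμ2⟩ := TH304.J498.exist d x hx0 hx1
  exact ⟨μ, ⟨hμ1, hμ2⟩, fun ν hν => D6 ν μ hν.1 hμ1 hν.2 hμ2⟩

end Pool.Agent.TH981.LO.Main
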