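import Pool.Agent.TH981.LO.Defs

/-!
# Loop O(1) uniqueness: statements of the intermediate results (project LO, seat helper981)

Every `S_...` below is a proposition; the modules of the project prove implications between them.
-/

set_option autoImplicit false

namespace Pool.Agent.TH981.LO

open scoped BigOperators symmDiff MeasureTheory

/-! ### Abstract layer -/

/-- `P` is increasing on the subsets of `F` -/
def Incr {E : Type} (F : Finset E) (P : Finset E → Prop) : Prop :=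
  ∀ ω ω' : Finset E, ω ⊆ ω' → ω' ⊆ F → P ω → P ω'

/-- monotonicity of the random-cluster measure in the weights (Holley) -/
def S_HOLLEY : Prop :=
  ∀ {V E : Type} [DecidableEq V] [DecidableEq E] (G : MG V E) (w w' : E → ℝ) (F : Finset E)
    (P : Finset E → Prop), (∀ e ∈ F, 0 ≤ w e) → (∀ e ∈ F, w e ≤ w' e) → (∀ e ∈ F, w' e ≤ 1) →
    Incr F P → G.fkp w F P ≤ G.fkp w' F P

/-- positive association (FKG) -/
def S_FKG : Prop :=
  ∀ {V E : Type} [DecidableEq V] [DecidableEq E] (G : MG V E) (w : E → ℝ) (F : Finset E)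
    (P Q : Finset E → Prop), (∀ e ∈ F, 0 ≤ w e) → (∀ e ∈ F, w e ≤ 1) → Incr F P → Incr F Q →
    G.fkp w F P * G.fkp w F Q ≤ G.fkp w F (fun ω => P ω ∧ Q ω)

/-- correlations are nondecreasing in weights and domain (Griffiths) -/
def S_CMONO : Prop :=
  ∀ {V E : Type} [DecidableEq V] [DecidableEq E] (G : MG V E) (w w' : E → ℝ) (F F' : Finset E)
    (A : V → ZMod 2), F ⊆ F' → (∀ e ∈ F, 0 ≤ w e) → (∀ e ∈ F, w e ≤ w' e) →
    (∀ e ∈ F', 0 ≤ w' e) → (∀ e ∈ F', w' e ≤ 1) → G.corr w F A ≤ G.corr w' F' A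

/-- second Griffiths inequality -/
def S_CMUL : Prop :=
  ∀ {V E : Type} [DecidableEq V] [DecidableEq E] (G : MG V E) (w : E → ℝ) (F : Finset E)
    (A B : V → ZMod 2), (∀ e ∈ F, 0 ≤ w e) → (∀ e ∈ F, w e ≤ 1) →
    G.corr w F A * G.corr w F B ≤ G.corr w F (A + B)

/-- Simon–Lieb inequality -/
def S_SL : Prop :=
  ∀ {V E : Type} [DecidableEq V] [DecidableEq E] (G : MG V E) (w : E → ℝ) (F : Finset E)
    (S : Finset V) (a b : V), (∀ e ∈ F, 0 ≤ w e) → (∀ e ∈ F, w e ≤ 1) → a ∈ S → b ∉ S →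
    G.corr w F (two a b) ≤
      ∑ e ∈ G.cut F S, G.corr w (G.ins F S) (two a (G.inn S e)) * w e *
        G.corr w F (two (G.out S e) b)

open Classical in
/-- domain Markov property for the `ω`-cluster of `U` -/
def S_MARK : Prop :=
  ∀ {V E : Type} [DecidableEq V] [DecidableEq E] (G : MG V E) (w : E → ℝ) (F : Finset E)
    (A : V → ZMod 2) (U : Finset V) (h : Finset E → Finset E → ℝ),
    G.PS w F A h =
      ∑ ω₁ ∈ F.powerset with G.con ω₁ U,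
        bw w (G.tch F (G.clF ω₁ U)) ω₁ *
          ∑ η₁ ∈ ω₁.powerset with (∀ v ∈ G.clF ω₁ U, G.bd η₁ v = A v),
            G.PS w (G.off F (G.clF ω₁ U)) (fun v => if v ∈ G.clF ω₁ U then 0 else A v)
              (fun ω₂ η₂ => h (ω₁ ∪ ω₂) (η₁ ∪ η₂))

open Classical in
/-- the same for the source cluster -/
def S_MARKL : Prop :=
  ∀ {V E : Type} [DecidableEq V] [DecidableEq E] (G : MG V E) (w : E → ℝ) (F : Finset E)
    (U : Finset V) (k : Finset V → ℝ) (g : Finset E → ℝ),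
    G.PS w F (ind U) (fun ω η => k (G.clF ω U) * g η) =
      ∑ ω₁ ∈ F.powerset with G.con ω₁ U,
        bw w (G.tch F (G.clF ω₁ U)) ω₁ * k (G.clF ω₁ U) *
          ∑ η₁ ∈ ω₁.powerset with G.bd η₁ = ind U,
            G.L w (G.off F (G.clF ω₁ U)) 0 (fun η₂ => g (η₁ ∪ η₂))

open Classical in
/-- exploration of the `η`-cluster of `U` in the complement of `N` -/
def S_EXPL : Prop :=
  ∀ {V E : Type} [DecidableEq V] [DecidableEq E] (G : MG V E) (w : E → ℝ) (F N : Finset E)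
    (A : V → ZMod 2) (U : Finset V) (g : Finset E → ℝ),
    G.L w F A g =
      ∑ ζ ∈ (F \ N).powerset with G.con ζ U,
        (∏ e ∈ ζ, w e) *
          G.L w (F \ G.tch (F \ N) (G.clF ζ U)) (A + G.bd ζ) (fun η' => g (ζ ∪ η'))

/-- quasi-independence: `P` increasing and depending on `S`, `Q` depending on the complement -/
def S_QI : Prop :=
  ∀ {V E : Type} [DecidableEq V] [DecidableEq E] (G : MG V E) (w : E → ℝ) (F S : Finset E)
    (P Q : Finset E → Prop), S ⊆ F → (∀ e ∈ F, 0 ≤ w e) → (∀ e ∈ F, w e ≤ 1) → Incr F P →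
    (∀ ω ⊆ F, (P ω ↔ P (ω ∩ S))) → (∀ ω ⊆ F, (Q ω ↔ Q (ω \ S))) →
    G.fkp w F (fun ω => P ω ∧ Q ω) ≤
      G.fkp (fun e => if e ∈ S then w e else 1) F P * G.fkp w F Q

/-- truncated correlations are bounded by connection probabilities -/
def S_TRUNC : Prop :=
  ∀ {V E : Type} [DecidableEq V] [DecidableEq E] (G : MG V E) (w : E → ℝ) (F : Finset E)
    (A : Finset V) (y z : V), (∀ e ∈ F, 0 ≤ w e) → (∀ e ∈ F, w e ≤ 1) →
    G.corr w F (ind A + two y z) - G.corr w F (ind A) * G.corr w F (two y z) ≤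
      ∑ a ∈ A, (G.corr w F (two a y) + G.corr w F (two a z))

/-- derivative of a correlation in a common weight on the edges of `H` -/
def S_DER : Prop :=
  ∀ {V E : Type} [DecidableEq V] [DecidableEq E] (G : MG V E) (w₀ : E → ℝ) (F H : Finset E)
    (A : V → ZMod 2) (s : ℝ), H ⊆ F → (∀ e ∈ F, 0 ≤ w₀ e) → 0 < s → s < 1 →
    HasDerivAt (fun r : ℝ => G.corr (fun e => if e ∈ H then r else w₀ e) F A)
      (∑ e ∈ H,
        (G.Z (fun e => if e ∈ H then s else w₀ e) (F.erase e) 0 /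
            G.Z (fun e => if e ∈ H then s else w₀ e) F 0) ^ 2 *
          (G.corr (fun e => if e ∈ H then s else w₀ e) (F.erase e) (A + G.inc e) -
            G.corr (fun e => if e ∈ H then s else w₀ e) (F.erase e) A *
              G.corr (fun e => if e ∈ H then s else w₀ e) (F.erase e) (G.inc e))) s

/-- lower bound for one term of the derivative -/
def S_DERLB : Prop :=
  ∀ {V E : Type} [DecidableEq V] [DecidableEq E] (G : MG V E) (w : E → ℝ) (F : Finset E)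
    (e : E) (a g : V), e ∈ F → (∀ e ∈ F, 0 ≤ w e) → (∀ e ∈ F, w e ≤ 1) →
    1 / 4 * (G.fkp w F (fun ω => G.Cn ω a (G.s e) ∧ G.Cn ω (G.t e) g ∧ ¬ G.Cn ω a g) +
        G.fkp w F (fun ω => G.Cn ω a (G.t e) ∧ G.Cn ω (G.s e) g ∧ ¬ G.Cn ω a g)) ≤
      (G.Z w (F.erase e) 0 / G.Z w F 0) ^ 2 *
        (G.corr w (F.erase e) (two a g + G.inc e) -
          G.corr w (F.erase e) (two a g) * G.corr w (F.erase e) (G.inc e))

/-! ### Sharpness of the phase transition -/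

/-- edges touching `box d n`, as a subset of `EB d (n+1)` -/
noncomputable def EH (d n : ℕ) : Finset (Ed d) :=
  (EB d (n + 1)).filter (fun e => nm e.1 ≤ n ∨ nm (e.1 + ev e.2) ≤ n)

/-- weights: `s` on the edges touching `box d n`, one on the other edges -/
noncomputable def ww (d n : ℕ) (s : ℝ) (e : Ed d) : ℝ := if e ∈ EH d n then s else 1

/-- a vertex of the (wired) boundary -/
def gh (d n : ℕ) : Vt d := fun _ => ((n : ℤ) + 1)

/-- the magnetization with plus (wired) boundary conditions in the high temperature expansion -/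
noncomputable def mw (d n : ℕ) (s : ℝ) : ℝ :=
  (lat d).corr (ww d n s) (EB d (n + 1)) (two 0 (gh d n))

/-- high temperature expansion -/
def S_MAGEQ (d : ℕ) : Prop :=
  ∀ (β : ℝ) (n : ℕ), 0 ≤ β → magPlus d β n = mw d n (Real.tanh β)

/-- decomposition by the cluster of the boundary -/
def S_MWD (d : ℕ) : Prop :=
  ∀ (x s : ℝ) (n : ℕ), 0 < x → x ≤ s → s < 1 → (∀ S : Finset (Vt d), 0 ∈ S → 1 ≤ phi d x S) →
    1 - mw d n s ≤
      ∑ e ∈ EH d n,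
        ((lat d).fkp (ww d n s) (EB d (n + 1)) (fun ω => (lat d).Cn ω 0 ((lat d).s e) ∧
            (lat d).Cn ω ((lat d).t e) (gh d n) ∧ ¬ (lat d).Cn ω 0 (gh d n)) +
          (lat d).fkp (ww d n s) (EB d (n + 1)) (fun ω => (lat d).Cn ω 0 ((lat d).t e) ∧
            (lat d).Cn ω ((lat d).s e) (gh d n) ∧ ¬ (lat d).Cn ω 0 (gh d n)))

/-- mean-field type lower bound -/
def S_MAGLB (d : ℕ) : Prop :=
  ∀ (x x' : ℝ) (n : ℕ), 0 < x → x < x' → x' < 1 →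
    (∀ S : Finset (Vt d), 0 ∈ S → 1 ≤ phi d x S) →
    1 - Real.exp (-(x' - x) / 4) ≤ mw d n x'

/-- sharpness -/
def S_SHARP (d : ℕ) : Prop := ∀ x : ℝ, 0 < x → x < Real.tanh (betaC d) → HS d x

/-! ### Exponential decay -/

/-- exponential decay, uniformly in the weights far away -/
def S_UD (d : ℕ) (x : ℝ) : Prop :=
  ∃ c : ℝ, 0 < c ∧ ∃ C : ℝ, 0 ≤ C ∧
    ∀ (F : Finset (Ed d)) (w : Ed d → ℝ) (v u : Vt d) (n : ℕ),
      (∀ e ∈ F, 0 ≤ w e) → (∀ e ∈ F, w e ≤ 1) →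
      (∀ e ∈ F, (nm (e.1 - v) ≤ n ∨ nm (e.1 + ev e.2 - v) ≤ n) → w e ≤ x) →
      n < nm (u - v) → (lat d).corr w F (two v u) ≤ C * Real.exp (-c * n)

/-- exponential decay of two-point functions -/
def S_DEC (d : ℕ) (x : ℝ) : Prop :=
  ∃ c : ℝ, 0 < c ∧ ∃ C : ℝ, 0 ≤ C ∧ ∀ (D : Finset (Ed d)) (a b : Vt d),
    CC d x D (two a b) ≤ C * Real.exp (-c * nm (a - b))

/-- correlations depend little on far away edges -/
def S_CLOC (d : ℕ) (x : ℝ) : Prop :=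
  ∃ c : ℝ, 0 < c ∧ ∃ C : ℝ, 0 ≤ C ∧
    ∀ (D₁ D₂ : Finset (Ed d)) (A : Finset (Vt d)) (ρ : ℕ),
      (∀ e : Ed d, (∃ a ∈ A, nm (e.1 - a) ≤ ρ) → (e ∈ D₁ ↔ e ∈ D₂)) →
      |CC d x D₁ (ind A) - CC d x D₂ (ind A)| ≤ C * A.card * Real.exp (-c * ρ)

/-- local expectations depend little on far away edges -/
def S_LOC (d : ℕ) (x : ℝ) : Prop :=
  ∃ c : ℝ, 0 < c ∧ ∀ m : ℕ, ∃ C : ℝ, 0 ≤ C ∧
    ∀ (D₁ D₂ : Finset (Ed d)) (ρ : ℕ) (f : Finset (Ed d) → ℝ),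
      (∀ η, |f η| ≤ 1) → LocS (EB d m) f → (∀ e ∈ EB d ρ, (e ∈ D₁ ↔ e ∈ D₂)) →
      |EE d x D₁ 0 f - EE d x D₂ 0 f| ≤ C * Real.exp (-c * ρ)

/-- comparison of partition functions: removing `Fo` and `Fi` or removing `Fo` and the
translate of `Fi` -/
def S_PF (d : ℕ) (x : ℝ) : Prop :=
  ∃ c : ℝ, 0 < c ∧ ∃ C : ℝ, 0 ≤ C ∧
    ∀ (i : Fin d) (D Fo Fi : Finset (Ed d)) (s : ℕ), 1 ≤ s → EB d (s + 1) ⊆ D → Fo ⊆ D →
      Disjoint Fo (EB d (s + 1)) → (∀ e ∈ Fi, shE (ev i) e ∈ EB d (s - 1)) →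
      |Real.log (ZZ d x (D \ (Fo ∪ Fi)) 0) -
          Real.log (ZZ d x (D \ (Fo ∪ shF (ev i) Fi)) 0)| ≤
        C * ∑ e ∈ Fo ∪ Fi, Real.exp (-c * |(nm e.1 : ℝ) - s|)

/-! ### Cluster tails -/

/-- block of a vertex -/
def blk {d : ℕ} (k : ℕ) (v : Vt d) : Vt d := fun i => v i / (k : ℤ)

/-- edges of `ω` inside `v + box k` -/
def inB {d : ℕ} (v : Vt d) (k : ℕ) (ω : Finset (Ed d)) : Finset (Ed d) :=
  ω.filter (fun e => nm (e.1 - v) ≤ k ∧ nm (e.1 + ev e.2 - v) ≤ k)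

/-- bad block -/
def Bad {d : ℕ} (k : ℕ) (j : Vt d) (ω : Finset (Ed d)) : Prop :=
  ∃ v : Vt d, blk k v = j ∧ ∃ u : Vt d, nm (u - v) = k ∧ (lat d).Cn (inB v k ω) v u

def S_BADP (d : ℕ) (x : ℝ) : Prop :=
  ∀ ε : ℝ, 0 < ε → ∃ k : ℕ, 1 ≤ k ∧
    ∀ (F : Finset (Ed d)) (w : Ed d → ℝ) (j : Vt d),
      (∀ e ∈ F, 0 ≤ w e) → (∀ e ∈ F, w e ≤ 1) →
      (∀ e ∈ F, (∃ v : Vt d, blk k v = j ∧ nm (e.1 - v) ≤ k ∧ nm (e.1 + ev e.2 - v) ≤ k) →
        w e ≤ x) →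
      (lat d).fkp w F (Bad k j) ≤ ε

def S_BADS (d : ℕ) (x : ℝ) : Prop :=
  ∀ ε : ℝ, 0 < ε → ∃ k : ℕ, 1 ≤ k ∧
    ∀ (D : Finset (Ed d)) (J : Finset (Vt d)),
      (∀ j ∈ J, ∀ j' ∈ J, j ≠ j' → 5 ≤ nm (j - j')) →
      (lat d).fkp (fun _ => x) D (fun ω => ∀ j ∈ J, Bad k j ω) ≤ ε ^ J.card

open Classical in
def S_BLK (d : ℕ) : Prop :=
  ∀ (k : ℕ) (ω : Finset (Ed d)) (U : Finset (Vt d)), 1 ≤ k →
    ((lat d).clF ω U).card ≤ k ^ d * (((lat d).clF ω U).image (blk k)).card ∧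
    ((((lat d).clF ω U).image (blk k)).filter (fun j => ¬ Bad k j ω)).card ≤ 3 ^ d * U.card ∧
    ∀ j ∈ ((lat d).clF ω U).image (blk k), ∃ u ∈ U.image (blk k),
      Relation.ReflTransGen
        (fun a b : Vt d => b ∈ ((lat d).clF ω U).image (blk k) ∧ nm (a - b) ≤ 1) u j

/-- counting of lattice animals -/
def S_ANIMAL (d : ℕ) : Prop :=
  ∀ (m : ℕ) (U₀ : Finset (Vt d)) (𝓕 : Finset (Finset (Vt d))),
    (∀ B ∈ 𝓕, B.card = m ∧ U₀ ⊆ B ∧ ∀ j ∈ B, ∃ u ∈ U₀,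
      Relation.ReflTransGen (fun a b : Vt d => b ∈ B ∧ nm (a - b) ≤ 1) u j) →
    𝓕.card ≤ 2 ^ (3 ^ d * m)

def S_SEP (d : ℕ) : Prop :=
  ∀ J : Finset (Vt d), ∃ J' : Finset (Vt d), J' ⊆ J ∧
    (∀ j ∈ J', ∀ j' ∈ J', j ≠ j' → 5 ≤ nm (j - j')) ∧ J.card ≤ 5 ^ d * J'.card

/-- exponential tail of the total size of the clusters of `U` -/
def S_CT (d : ℕ) (x : ℝ) : Prop :=
  ∃ c : ℝ, 0 < c ∧ ∃ C : ℝ, 1 ≤ C ∧ ∀ (D : Finset (Ed d)) (U : Finset (Vt d)) (L : ℕ),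
    (lat d).fkp (fun _ => x) D (fun ω => L ≤ ((lat d).clF ω U).card) ≤
      C ^ U.card * Real.exp (-c * L)

open Classical in
/-- the same in the model with sources -/
def S_STAIL (d : ℕ) (x : ℝ) : Prop :=
  ∃ c : ℝ, 0 < c ∧ ∃ C : ℝ, 1 ≤ C ∧
    ∀ (D η₀ : Finset (Ed d)) (U : Finset (Vt d)) (L : ℕ), η₀ ⊆ D → (lat d).bd η₀ = ind U →
      (lat d).PS (fun _ => x) D (ind U)
          (fun ω _ => if L ≤ ((lat d).clF ω U).card then 1 else 0) ≤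
        C ^ U.card * Real.exp (-c * L) * (x⁻¹) ^ η₀.card * ZZ d x D (ind U)

/-- cheap `T`-joins -/
def S_TJ (d : ℕ) : Prop :=
  ∀ δ : ℝ, 0 < δ → ∃ K : ℝ, 0 ≤ K ∧ ∀ (T : ℕ) (U : Finset (Vt d)), U ⊆ box d T → Even U.card →
    ∃ η₀ : Finset (Ed d), η₀ ⊆ EB d T ∧ (lat d).bd η₀ = ind U ∧
      (η₀.card : ℝ) ≤ δ * U.card * T + K * T

/-- feasible source sets in a finite domain are even -/
def S_EVEN (d : ℕ) : Prop :=
  ∀ (x : ℝ) (D : Finset (Ed d)) (U : Finset (Vt d)), ZZ d x D (ind U) ≠ 0 → Even U.card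

/-! ### Reduction of the number of sources -/

open Classical in
/-- exploration from outside until a sphere is crossed at most `n'` times -/
def S_STEPDET (d : ℕ) : Prop :=
  ∀ (x : ℝ) (T h n' : ℕ) (D : Finset (Ed d)) (U : Finset (Vt d)) (f : Finset (Ed d) → ℝ) (a : ℝ),
    0 < x → x < 1 → h ≤ T → EB d T ⊆ D → (∀ u ∈ U, nm u = T) → LocS (EB d h) f →
    (∀ η, f η ≤ 1) → 0 ≤ a →
    (∀ (t : ℕ) (D' : Finset (Ed d)) (U' : Finset (Vt d)), h ≤ t → t < T → EB d t ⊆ D' →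
      (∀ u ∈ U', nm u = t) → U'.card ≤ n' → ZZ d x D' (ind U') ≠ 0 → EE d x D' (ind U') f ≤ a) →
    ZZ d x D (ind U) ≠ 0 →
    EE d x D (ind U) f ≤ a + EE d x D (ind U)
      (fun η => if (n' + 1) * (T - h) ≤ ((lat d).clF η U).card then 1 else 0)

open Classical in
def S_STEPPROB (d : ℕ) (x : ℝ) : Prop :=
  ∃ K : ℕ, ∃ c : ℝ, 0 < c ∧ ∃ T₀ : ℕ, ∀ (T : ℕ) (D : Finset (Ed d)) (U : Finset (Vt d)),
    T₀ ≤ T → EB d T ⊆ D → (∀ u ∈ U, nm u = T) → K ≤ U.card → ZZ d x D (ind U) ≠ 0 →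
    EE d x D (ind U) (fun η =>
      if (U.card / 4 ^ d + 1) * (T - (T + 1) / 2) ≤ ((lat d).clF η U).card then 1 else 0) ≤
        Real.exp (-c * T)

/-- bootstrapping: it is enough to treat boundedly many sources -/
def S_BOOT (d : ℕ) (x : ℝ) : Prop :=
  ∃ K : ℕ, ∀ ε : ℝ, 0 < ε → ∃ T₀ : ℕ, ∀ (T₁ : ℕ) (f : Finset (Ed d) → ℝ) (a : ℝ), T₀ ≤ T₁ →
    LocS (EB d T₁) f → (∀ η, f η ≤ 1) → 0 ≤ a →
    (∀ (T : ℕ) (D : Finset (Ed d)) (U : Finset (Vt d)), T₁ ≤ T → EB d T ⊆ D →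
      (∀ u ∈ U, nm u = T) → U.card ≤ K → ZZ d x D (ind U) ≠ 0 → EE d x D (ind U) f ≤ a) →
    ∀ (T : ℕ) (D : Finset (Ed d)) (U : Finset (Vt d)), T₁ ≤ T → EB d T ⊆ D →
      (∀ u ∈ U, nm u = T) → U.card * T₁ ^ (2 * d) ≤ T ^ (2 * d) → ZZ d x D (ind U) ≠ 0 →
      EE d x D (ind U) f ≤ a + ε

/-! ### The surgery -/

/-- the vertices of `κ` on the sphere of radius `s` -/
def spF {d : ℕ} (s : ℕ) (κ : Finset (Vt d)) : Finset (Vt d) := κ.filter (fun v => nm v = s)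

/-- the edges `(a, a + e_i)`, `a ∈ A` -/
def conE {d : ℕ} (i : Fin d) (A : Finset (Vt d)) : Finset (Ed d) := A.image (fun a => (a, i))

/-- surgery on `ω`: the part inside `box s` is translated by `e_i` and reconnected -/
noncomputable def srgO {d : ℕ} (s : ℕ) (i : Fin d) (κ : Finset (Vt d)) (ω : Finset (Ed d)) :
    Finset (Ed d) :=
  (ω \ EB d s) ∪ shF (ev i) (ω ∩ EB d s) ∪ conE i (spF s κ)

/-- surgery on `η` -/
noncomputable def srgH {d : ℕ} (s : ℕ) (i : Fin d) (κ : Finset (Vt d)) (η : Finset (Ed d)) :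
    Finset (Ed d) :=
  ((η \ EB d s) ∆ shF (ev i) (η ∩ EB d s)) ∆
    conE i ((spF s κ).filter (fun a => (lat d).bd (η ∩ EB d s) a ≠ 0))

/-- the vertex set of the new cluster -/
noncomputable def srgK {d : ℕ} (s : ℕ) (i : Fin d) (κ : Finset (Vt d)) : Finset (Vt d) :=
  κ.image (fun v => if nm v ≤ s then v + ev i else v) ∪ spF s κ

/-- number of vertices of `κ` near the sphere of radius `s` -/
def shc {d : ℕ} (s : ℕ) (κ : Finset (Vt d)) : ℕ :=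
  (κ.filter (fun v => s ≤ nm v + 5 ∧ nm v ≤ s + 5)).card

/-- exponentially weighted number of vertices of `κ` near the sphere of radius `s` -/
noncomputable def ms {d : ℕ} (q : ℝ) (s : ℕ) (κ : Finset (Vt d)) : ℝ :=
  ∑ v ∈ κ, q ^ (((nm v : ℤ) - (s : ℤ)).natAbs)

/-- the new cluster -/
def S_SG1 (d : ℕ) : Prop :=
  ∀ (s : ℕ) (i : Fin d) (D ω : Finset (Ed d)) (U : Finset (Vt d)), 1 ≤ s → EB d (s + 1) ⊆ D →
    ω ⊆ D → (lat d).con ω U → (∀ u ∈ U, s + 1 < nm u) →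
    srgO s i ((lat d).clF ω U) ω ⊆ D ∧ (lat d).con (srgO s i ((lat d).clF ω U) ω) U ∧
      (lat d).clF (srgO s i ((lat d).clF ω U) ω) U = srgK s i ((lat d).clF ω U)

/-- the new `η` -/
def S_SG2 (d : ℕ) : Prop :=
  ∀ (s : ℕ) (i : Fin d) (ω η : Finset (Ed d)) (U : Finset (Vt d)), 1 ≤ s →
    (lat d).con ω U → (∀ u ∈ U, s + 1 < nm u) → η ⊆ ω → (lat d).bd η = ind U →
    srgH s i ((lat d).clF ω U) η ⊆ srgO s i ((lat d).clF ω U) ω ∧
      (lat d).bd (srgH s i ((lat d).clF ω U) η) = ind U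

/-- weights -/
def S_SG3 (d : ℕ) : Prop :=
  ∀ (x : ℝ) (s : ℕ) (i : Fin d) (D ω : Finset (Ed d)) (U : Finset (Vt d)), 0 < x → x < 1 →
    1 ≤ s → EB d (s + 1) ⊆ D → ω ⊆ D → (lat d).con ω U → (∀ u ∈ U, s + 1 < nm u) →
    (x * (1 - x)) ^ (8 * d * shc s ((lat d).clF ω U)) *
        bw (fun _ => x) ((lat d).tch D ((lat d).clF ω U)) ω ≤
      bw (fun _ => x) ((lat d).tch D (srgK s i ((lat d).clF ω U)))
        (srgO s i ((lat d).clF ω U) ω)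

/-- partition functions -/
def S_SG4 (d : ℕ) (x : ℝ) : Prop :=
  ∃ q : ℝ, 0 < q ∧ q < 1 ∧ ∃ C : ℝ, 0 ≤ C ∧
    ∀ (s : ℕ) (i : Fin d) (D : Finset (Ed d)) (κ : Finset (Vt d)), 1 ≤ s → EB d (s + 1) ⊆ D →
      ZZ d x ((lat d).off D κ) 0 ≤
        Real.exp (C * ms q s κ) * ZZ d x ((lat d).off D (srgK s i κ)) 0

open Classical in
/-- multiplicity of the surgery map -/
def S_SG5 (d : ℕ) : Prop :=
  ∀ (s N : ℕ) (i : Fin d) (D : Finset (Ed d)) (U : Finset (Vt d))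
    (g : Finset (Ed d) → Finset (Ed d) → ℝ), 1 ≤ s → EB d (s + 1) ⊆ D →
    (∀ u ∈ U, s + 1 < nm u) → (∀ ω η, 0 ≤ g ω η) →
    ∑ ω ∈ D.powerset with ((lat d).con ω U ∧ shc s ((lat d).clF ω U) ≤ N),
        ∑ η ∈ ω.powerset with (lat d).bd η = ind U,
          g (srgO s i ((lat d).clF ω U) ω) (srgH s i ((lat d).clF ω U) η) ≤
      4 ^ (4 * d * N) *
        ∑ ω ∈ D.powerset with (lat d).con ω U,
          ∑ η ∈ ω.powerset with (lat d).bd η = ind U, g ω η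

/-- near the centre the surgery is a translation -/
def S_SG6 (d : ℕ) : Prop :=
  ∀ (s m : ℕ) (i : Fin d) (κ : Finset (Vt d)) (η₁ η₂ : Finset (Ed d)), m < s →
    (srgH s i κ η₁ ∪ shF (ev i) η₂) ∩ EB d m = shF (ev i) (η₁ ∪ η₂) ∩ EB d m

/-- domains agree near the centre -/
def S_SG7 (d : ℕ) : Prop :=
  ∀ (s : ℕ) (i : Fin d) (D : Finset (Ed d)) (κ : Finset (Vt d)), 1 ≤ s → EB d (s + 1) ⊆ D →
    ∀ e ∈ EB d (s - 1),
      (e ∈ shF (ev i) ((lat d).off D κ) ↔ e ∈ (lat d).off D (srgK s i κ))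

open Classical in
/-- the surgery estimate at a fixed radius -/
def S_SURG (d : ℕ) (x : ℝ) : Prop :=
  ∃ q : ℝ, 0 < q ∧ q < 1 ∧ ∃ C₁ : ℝ, 1 ≤ C₁ ∧ ∃ c : ℝ, 0 < c ∧ ∀ m : ℕ, ∃ C : ℝ, 0 ≤ C ∧
    ∀ (s K' : ℕ) (i : Fin d) (D : Finset (Ed d)) (U : Finset (Vt d)) (P : Finset (Ed d) → Prop),
      m < s → EB d (s + 1) ⊆ D → (∀ u ∈ U, s + 1 < nm u) → LocS (EB d m) P →
      (lat d).PS (fun _ => x) D (ind U) (fun ω η =>
          if ms q s ((lat d).clF ω U) ≤ K' ∧ P (shF (ev i) η) then 1 else 0) ≤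
        C₁ ^ K' * (LL d x D (ind U) (fun η => if P η then 1 else 0) +
          C * Real.exp (-c * s) * ZZ d x D (ind U))

open Classical in
/-- comparison of a shifted and an unshifted event, for boundedly many sources -/
def S_AC (d : ℕ) (x : ℝ) : Prop :=
  ∀ K : ℕ, ∃ C : ℝ, 0 ≤ C ∧ ∀ (m : ℕ) (ε : ℝ), 0 < ε → ∃ T₀ : ℕ,
    ∀ (T : ℕ) (D : Finset (Ed d)) (U : Finset (Vt d)) (i : Fin d) (P : Finset (Ed d) → Prop),
      T₀ ≤ T → EB d T ⊆ D → (∀ u ∈ U, nm u = T) → U.card ≤ K → ZZ d x D (ind U) ≠ 0 →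
      LocS (EB d m) P →
      EE d x D (ind U) (fun η => if P (shF (ev i) η) then 1 else 0) ≤
        C * EE d x D (ind U) (fun η => if P η then 1 else 0) + ε

open Classical in
/-- the same for arbitrary sources on the boundary of a box -/
def S_FV1 (d : ℕ) (x : ℝ) : Prop :=
  ∃ C : ℝ, 0 ≤ C ∧ ∀ (m : ℕ) (ε : ℝ), 0 < ε → ∃ R₀ : ℕ,
    ∀ (R : ℕ) (U : Finset (Vt d)) (i : Fin d) (P : Finset (Ed d) → Prop),
      R₀ ≤ R → (∀ u ∈ U, nm u = R) → ZZ d x (EB d R) (ind U) ≠ 0 → LocS (EB d m) P →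
      EE d x (EB d R) (ind U) (fun η => if P (shF (ev i) η) then 1 else 0) ≤
        C * EE d x (EB d R) (ind U) (fun η => if P η then 1 else 0) + ε

/-- spatial averages do not feel the boundary sources -/
def S_FV2 (d : ℕ) (x : ℝ) : Prop :=
  ∀ (m : ℕ) (ε : ℝ), 0 < ε → ∃ R₀ : ℕ,
    ∀ (R R' : ℕ) (U : Finset (Vt d)) (f : Finset (Ed d) → ℝ),
      R₀ ≤ R → R₀ ≤ R' → (∀ u ∈ U, nm u = R) → ZZ d x (EB d R) (ind U) ≠ 0 →
      (∀ η, |f η| ≤ 1) → LocS (EB d m) f →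
      |((box d (R / 2)).card : ℝ)⁻¹ *
            ∑ v ∈ box d (R / 2), EE d x (EB d R) (ind U) (fun η => f (shF v η)) -
          EE d x (EB d R') 0 f| ≤ ε

/-! ### Gibbs measures -/

open MeasureTheory

/-- transfer from finite volume to Gibbs measures -/
def S_TRANS (d : ℕ) (x : ℝ) : Prop :=
  ∀ (μ : Measure (Om d)), IsFiniteMeasure μ → IsGibbs d x μ →
    ∀ (R : ℕ) (g : Finset (Ed d) → ℝ) (a : ℝ),
      (∀ U : Finset (Vt d), (∀ u ∈ U, nm u = R) → ZZ d x (EB d R) (ind U) ≠ 0 →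
        EE d x (EB d R) (ind U) g ≤ a) →
      ∫ η, g (restr (EB d R) η) ∂μ ≤ a * μ.real Set.univ

/-- Gibbs measures are preserved by translations -/
def S_MAPG (d : ℕ) (x : ℝ) : Prop :=
  ∀ (μ : Measure (Om d)) (z : Vt d), IsFiniteMeasure μ → IsGibbs d x μ →
    IsGibbs d x (μ.map (shO z))

/-- Gibbs measures are preserved by (truncated) subtraction -/
def S_SUBG (d : ℕ) (x : ℝ) : Prop :=
  ∀ (μ ν : Measure (Om d)), IsFiniteMeasure μ → IsFiniteMeasure ν → IsGibbs d x μ →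
    IsGibbs d x ν → IsGibbs d x (μ - ν)

/-- translates of Gibbs measures are absolutely continuous -/
def S_ACG (d : ℕ) (x : ℝ) : Prop :=
  ∀ (μ : Measure (Om d)) (i : Fin d), IsFiniteMeasure μ → IsGibbs d x μ →
    (μ.map (shO (ev i))) ≪ μ

/-- abstract principle: absolute continuity implies invariance -/
def S_HAHN : Prop :=
  ∀ {Ω : Type} [MeasurableSpace Ω] (τ : Ω → Ω) (𝓖 : Set (Measure Ω)), Measurable τ →
    (∀ μ ∈ 𝓖, IsFiniteMeasure μ) → (∀ μ ∈ 𝓖, ∀ ν ∈ 𝓖, μ - ν ∈ 𝓖) → (∀ μ ∈ 𝓖, μ.map τ ∈ 𝓖) →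
    (∀ μ ∈ 𝓖, μ.map τ ≪ μ) → ∀ μ ∈ 𝓖, μ.map τ = μ

/-- all Gibbs measures are translation invariant -/
def S_TI (d : ℕ) (x : ℝ) : Prop :=
  ∀ (μ : Measure (Om d)) (z : Vt d), IsFiniteMeasure μ → IsGibbs d x μ → μ.map (shO z) = μ

/-- uniqueness -/
def S_UNIQ (d : ℕ) (x : ℝ) : Prop :=
  ∀ (μ ν : Measure (Om d)), IsProbabilityMeasure μ → IsProbabilityMeasure ν → IsGibbs d x μ →
    IsGibbs d x ν → μ = ν

/-- existence -/
def S_EXIST (d : ℕ) (x : ℝ) : Prop :=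
  ∃ μ : Measure (Om d), IsProbabilityMeasure μ ∧ IsGibbs d x μ

end Pool.Agent.TH981.LO
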